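import Pool.Agent.Helper39.CUB.Defs

/-!
# Elementary facts on `Forms`
-/

namespace PoolH39.CUB

open Filter Topology

variable {n : ℕ} (F : Forms n)

/-- the linear change in direction `e` -/
def Forms.cc (e y : Fin n → ℝ) : ℝ := 3 * F.T e y y + 2 * F.B e y + F.L e

lemma Forms.T_add3 (x y : Fin n → ℝ) :
    F.T (x + y) (x + y) (x + y)
      = F.T x x x + 3 * F.T x x y + 3 * F.T x y y + F.T y y y := by
  simp only [map_add, LinearMap.add_apply]
  have h1 : F.T x y x = F.T x x y := (F.Ts2 x y x)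
  have h2 : F.T y x x = F.T x x y := by rw [F.Ts1 y x x, F.Ts2 x y x]
  have h3 : F.T y x y = F.T x y y := F.Ts1 y x y
  have h4 : F.T y y x = F.T x y y := by rw [F.Ts2 y y x, F.Ts1 y x y]
  rw [h1, h2, h3, h4]; ring

lemma Forms.B_add2 (x y : Fin n → ℝ) :
    F.B (x + y) (x + y) = F.B x x + 2 * F.B x y + F.B y y := by
  simp only [map_add, LinearMap.add_apply]
  rw [F.Bs y x]; ring

lemma Forms.eval_add (e y : Fin n → ℝ) :
    F.eval (y + e) = F.eval y + F.cc e y + (3 * F.T e e y + F.B e e) + F.T e e e := by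
  unfold Forms.eval Forms.cc
  rw [F.T_add3 y e, F.B_add2 y e, map_add]
  have h1 : F.T y y e = F.T e y y := by rw [F.Ts2 y y e, F.Ts1 y e y]
  have h2 : F.T y e e = F.T e e y := by rw [F.Ts1 y e e, F.Ts2 e y e]
  rw [h1, h2, F.Bs y e]; ring

/-- vanishing data on a subspace -/
structure Forms.Van (V : Submodule ℝ (Fin n → ℝ)) : Prop where
  hT : ∀ e ∈ V, ∀ x, F.T e e x = 0
  hB : ∀ e ∈ V, F.B e e = 0

lemma Forms.Van.T2 {F : Forms n} {V : Submodule ℝ (Fin n → ℝ)} (h : F.Van V) {e e' : Fin n → ℝ}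
    (he : e ∈ V) (he' : e' ∈ V) (x : Fin n → ℝ) : F.T e e' x = 0 := by
  have h1 := h.hT (e + e') (V.add_mem he he') x
  simp only [map_add, LinearMap.add_apply] at h1
  rw [h.hT e he x, h.hT e' he' x, F.Ts1 e' e x] at h1
  linarith

lemma Forms.Van.B2 {F : Forms n} {V : Submodule ℝ (Fin n → ℝ)} (h : F.Van V) {e e' : Fin n → ℝ}
    (he : e ∈ V) (he' : e' ∈ V) : F.B e e' = 0 := by
  have h1 := h.hB (e + e') (V.add_mem he he')
  rw [F.B_add2, h.hB e he, h.hB e' he'] at h1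
  linarith

lemma Forms.Van.eval_add {F : Forms n} {V : Submodule ℝ (Fin n → ℝ)} (h : F.Van V)
    {e : Fin n → ℝ} (he : e ∈ V) (y : Fin n → ℝ) : F.eval (y + e) = F.eval y + F.cc e y := by
  rw [F.eval_add, h.hT e he y, h.hT e he e, h.hB e he]; ring

lemma Forms.Van.cc_shift {F : Forms n} {V : Submodule ℝ (Fin n → ℝ)} (h : F.Van V)
    {e e' : Fin n → ℝ} (he : e ∈ V) (he' : e' ∈ V) (y : Fin n → ℝ) :
    F.cc e (y + e') = F.cc e y := by
  unfold Forms.cc
  simp only [map_add, LinearMap.add_apply]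
  rw [h.T2 he he' y, h.T2 he he' e', h.B2 he he', F.Ts2 e y e', h.T2 he he' y]; ring

lemma Forms.cc_smul (s : ℝ) (e y : Fin n → ℝ) : F.cc (s • e) y = s * F.cc e y := by
  unfold Forms.cc
  simp only [map_smul, LinearMap.smul_apply, smul_eq_mul]; ring

/-! ### continuity and bounds -/

lemma lin_eq_sum (l : (Fin n → ℝ) →ₗ[ℝ] ℝ) (x : Fin n → ℝ) :
    l x = ∑ i, x i * l (Pi.single i 1) := by
  conv_lhs => rw [← Finset.univ_sum_single x]
  rw [map_sum]
  refine Finset.sum_congr rfl fun i _ => ?_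
  have : (Pi.single i (x i) : Fin n → ℝ) = x i • Pi.single i (1 : ℝ) := by
    rw [← Pi.single_smul, smul_eq_mul, mul_one]
  rw [this, map_smul, smul_eq_mul]

lemma lin_bound (l : (Fin n → ℝ) →ₗ[ℝ] ℝ) :
    ∃ C : ℝ, 0 ≤ C ∧ ∀ x, |l x| ≤ C * ‖x‖ := by
  refine ⟨∑ i, |l (Pi.single i 1)|, Finset.sum_nonneg fun i _ => abs_nonneg _, fun x => ?_⟩
  rw [lin_eq_sum l x, Finset.sum_mul]
  refine (Finset.abs_sum_le_sum_abs _ _).trans (Finset.sum_le_sum fun i _ => ?_)
  rw [abs_mul, mul_comm]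
  exact mul_le_mul_of_nonneg_left (by simpa using norm_le_pi_norm x i) (abs_nonneg _)

lemma bil_bound (b : (Fin n → ℝ) →ₗ[ℝ] (Fin n → ℝ) →ₗ[ℝ] ℝ) :
    ∃ C : ℝ, 0 ≤ C ∧ ∀ x y, |b x y| ≤ C * ‖x‖ * ‖y‖ := by
  choose C hC0 hC using fun i => lin_bound (b (Pi.single i 1))
  refine ⟨∑ i, C i, Finset.sum_nonneg fun i _ => hC0 i, fun x y => ?_⟩
  have h := lin_eq_sum (b.flip y) x
  simp only [LinearMap.flip_apply] at h
  rw [h, Finset.sum_mul, Finset.sum_mul]
  refine (Finset.abs_sum_le_sum_abs _ _).trans (Finset.sum_le_sum fun i _ => ?_)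
  rw [abs_mul]
  have h1 : |x i| ≤ ‖x‖ := by simpa using norm_le_pi_norm x i
  calc |x i| * |b (Pi.single i 1) y| ≤ ‖x‖ * (C i * ‖y‖) :=
        mul_le_mul h1 (hC i y) (abs_nonneg _) (norm_nonneg _)
    _ = C i * ‖x‖ * ‖y‖ := by ring

lemma tri_bound (t : (Fin n → ℝ) →ₗ[ℝ] (Fin n → ℝ) →ₗ[ℝ] (Fin n → ℝ) →ₗ[ℝ] ℝ) :
    ∃ C : ℝ, 0 ≤ C ∧ ∀ x y z, |t x y z| ≤ C * ‖x‖ * ‖y‖ * ‖z‖ := by
  choose C hC0 hC using fun i => bil_bound (t (Pi.single i 1))
  refine ⟨∑ i, C i, Finset.sum_nonneg fun i _ => hC0 i, fun x y z => ?_⟩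
  have h := lin_eq_sum ((t.flip y).flip z) x
  simp only [LinearMap.flip_apply] at h
  rw [h, Finset.sum_mul, Finset.sum_mul, Finset.sum_mul]
  refine (Finset.abs_sum_le_sum_abs _ _).trans (Finset.sum_le_sum fun i _ => ?_)
  rw [abs_mul]
  have h1 : |x i| ≤ ‖x‖ := by simpa using norm_le_pi_norm x i
  calc |x i| * |t (Pi.single i 1) y z| ≤ ‖x‖ * (C i * ‖y‖ * ‖z‖) :=
        mul_le_mul h1 (hC i y z) (abs_nonneg _) (norm_nonneg _)
    _ = C i * ‖x‖ * ‖y‖ * ‖z‖ := by ring

/-- one constant for all three forms -/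
lemma Forms.bound : ∃ C : ℝ, 0 ≤ C ∧ (∀ x y z, |F.T x y z| ≤ C * ‖x‖ * ‖y‖ * ‖z‖) ∧
    (∀ x y, |F.B x y| ≤ C * ‖x‖ * ‖y‖) ∧ (∀ x, |F.L x| ≤ C * ‖x‖) := by
  obtain ⟨C1, h10, h1⟩ := tri_bound F.T
  obtain ⟨C2, h20, h2⟩ := bil_bound F.B
  obtain ⟨C3, h30, h3⟩ := lin_bound F.L
  refine ⟨C1 + C2 + C3, by positivity, fun x y z => (h1 x y z).trans ?_,
    fun x y => (h2 x y).trans ?_, fun x => (h3 x).trans ?_⟩
  · gcongr; linarith
  · gcongr; linarith
  · gcongr; linarith

lemma Forms.cont_T : Continuous fun x : Fin n → ℝ => F.T x x x := by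
  have h : (fun x : Fin n → ℝ => F.T x x x)
      = fun x => ∑ i, x i * ∑ j, x j * ∑ k, x k * F.T (Pi.single i 1) (Pi.single j 1)
        (Pi.single k 1) := by
    funext x
    have h1 := lin_eq_sum ((F.T.flip x).flip x) x
    simp only [LinearMap.flip_apply] at h1
    rw [h1]
    refine Finset.sum_congr rfl fun i _ => ?_
    have h2 := lin_eq_sum ((F.T (Pi.single i 1)).flip x) x
    simp only [LinearMap.flip_apply] at h2
    rw [h2]
    congr 1
    refine Finset.sum_congr rfl fun j _ => ?_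
    rw [lin_eq_sum (F.T (Pi.single i 1) (Pi.single j 1)) x]
  rw [h]; fun_prop

lemma Forms.cont_B : Continuous fun x : Fin n → ℝ => F.B x x := by
  have h : (fun x : Fin n → ℝ => F.B x x)
      = fun x => ∑ i, x i * ∑ j, x j * F.B (Pi.single i 1) (Pi.single j 1) := by
    funext x
    have h1 := lin_eq_sum (F.B.flip x) x
    simp only [LinearMap.flip_apply] at h1
    rw [h1]
    refine Finset.sum_congr rfl fun i _ => ?_
    rw [lin_eq_sum (F.B (Pi.single i 1)) x]
  rw [h]; fun_prop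

lemma cont_lin (l : (Fin n → ℝ) →ₗ[ℝ] ℝ) : Continuous fun x : Fin n → ℝ => l x :=
  l.continuous_of_finiteDimensional

lemma Forms.cont_cc (e : Fin n → ℝ) : Continuous fun x : Fin n → ℝ => F.cc e x := by
  have h : (fun x : Fin n → ℝ => F.T e x x)
      = fun x => ∑ i, x i * ∑ j, x j * F.T e (Pi.single i 1) (Pi.single j 1) := by
    funext x
    have h1 := lin_eq_sum ((F.T e).flip x) x
    simp only [LinearMap.flip_apply] at h1
    rw [h1]
    refine Finset.sum_congr rfl fun i _ => ?_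
    rw [lin_eq_sum (F.T e (Pi.single i 1)) x]
  have h2 : Continuous fun x : Fin n → ℝ => F.T e x x := by rw [h]; fun_prop
  have h3 : Continuous fun x : Fin n → ℝ => F.B e x := cont_lin (F.B e)
  unfold Forms.cc
  exact ((continuous_const.mul h2).add (continuous_const.mul h3)).add continuous_const

/-- the value is bounded on bounded sets -/
lemma Forms.eval_bdd (R : ℝ) : ∃ K : ℝ, ∀ x : Fin n → ℝ, ‖x‖ ≤ R → F.eval x ≤ K := by
  obtain ⟨C, hC0, h1, h2, h3⟩ := F.bound
  refine ⟨C * R * R * R + C * R * R + C * R + |F.c|, fun x hx => ?_⟩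
  have hx0 := norm_nonneg x
  have hR : 0 ≤ R := hx0.trans hx
  unfold Forms.eval
  have e1 : F.T x x x ≤ C * R * R * R :=
    (le_abs_self _).trans ((h1 x x x).trans (by gcongr))
  have e2 : F.B x x ≤ C * R * R := (le_abs_self _).trans ((h2 x x).trans (by gcongr))
  have e3 : F.L x ≤ C * R := (le_abs_self _).trans ((h3 x).trans (by gcongr))
  have e4 := le_abs_self F.c
  linarith

/-- first and second order consequences of a one-sided inequality near zero -/
lemma small_order {α β γ ε₀ : ℝ} (h0 : 0 < ε₀)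
    (h : ∀ ε, 0 < ε → ε ≤ ε₀ → α * ε + β * ε ^ 2 + γ * ε ^ 3 ≤ 0) :
    α ≤ 0 ∧ (α = 0 → β ≤ 0) := by
  constructor
  · by_contra hα
    push Not at hα
    set M := |β| + |γ| + 1 with hM
    have hM0 : 0 < M := by positivity
    set ε := min (min ε₀ 1) (α / (2 * M)) with hε
    have hε0 : 0 < ε := by
      have : 0 < α / (2 * M) := by positivity
      exact lt_min (lt_min h0 one_pos) this
    have h1 : ε ≤ ε₀ := (min_le_left _ _).trans (min_le_left _ _)
    have h2 : ε ≤ 1 := (min_le_left _ _).trans (min_le_right _ _)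
    have h3 : ε * (2 * M) ≤ α := by
      have := min_le_right (min ε₀ 1) (α / (2 * M))
      rw [← hε, le_div_iff₀ (by positivity)] at this
      exact this
    have h4 := h ε hε0 h1
    have h5 : α + β * ε + γ * ε ^ 2 ≤ 0 := by
      by_contra hc
      push Not at hc
      have := mul_pos hε0 hc
      nlinarith
    have h6 : -(|β| * ε) ≤ β * ε := by
      have := neg_abs_le β
      nlinarith
    have h7 : -(|γ| * ε) ≤ γ * ε ^ 2 := by
      have h8 : -(|γ| * ε ^ 2) ≤ γ * ε ^ 2 := by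
        have := neg_abs_le γ
        nlinarith [sq_nonneg ε]
      have h9 : ε ^ 2 ≤ ε := by nlinarith
      have := mul_le_mul_of_nonneg_left h9 (abs_nonneg γ)
      linarith
    nlinarith
  · intro hα
    by_contra hβ
    push Not at hβ
    set M := |γ| + 1 with hM
    have hM0 : 0 < M := by positivity
    set ε := min ε₀ (β / (2 * M)) with hε
    have hε0 : 0 < ε := by
      have : 0 < β / (2 * M) := by positivity
      exact lt_min h0 this
    have h1 : ε ≤ ε₀ := min_le_left _ _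
    have h3 : ε * (2 * M) ≤ β := by
      have := min_le_right ε₀ (β / (2 * M))
      rw [← hε, le_div_iff₀ (by positivity)] at this
      exact this
    have h4 := h ε hε0 h1
    rw [hα] at h4
    have h5 : β + γ * ε ≤ 0 := by
      by_contra hc
      push Not at hc
      have := mul_pos (pow_pos hε0 2) hc
      nlinarith
    have h6 : -(|γ| * ε) ≤ γ * ε := by
      have := neg_abs_le γ
      nlinarith
    nlinarith

end PoolH39.CUB
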