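import Pool.Agent.Helper39.CUB.State

/-!
# The core theorem: no divisible pair of values forces boundedness in degree at most three
-/

namespace PoolH39.CUB

open Filter Topology

variable {n : ℕ}

/-- no state exists -/
lemma no_state {f : (Fin n → ℤ) → ℤ} {M0 : ℤ} {F : Forms n} (hM : 0 ≤ M0)
    (hF : ∀ a, (f a : ℝ) = F.eval (cast a)) (hst : Star f M0)
    {a : ℕ → Fin n → ℤ} (ha : ∀ k i, 0 ≤ a k i)
    (hc : ∀ i, Tendsto (fun k => (a k i : ℝ)) atTop atTop)
    (hv : Tendsto (fun k => F.eval (cast (a k))) atTop atTop) : False := by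
  have h : ∀ j : ℕ, ∃ (V : Submodule ℝ (Fin n → ℝ)) (S : Set (Fin n)) (b : ℕ → Fin n → ℤ),
      State F V S b ∧ j ≤ Module.finrank ℝ V := by
    intro j
    induction j with
    | zero =>
      refine ⟨⊥, ∅, a, ⟨⟨?_, ?_⟩, ?_, ha, hc, hv, ?_⟩, Nat.zero_le _⟩
      · intro e he x
        rw [Submodule.mem_bot] at he
        subst he; simp
      · intro e he
        rw [Submodule.mem_bot] at he
        subst he; simp
      · intro e he i _
        rw [Submodule.mem_bot] at he
        subst he; simp
      · intro i hi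
        exact absurd hi (Set.notMem_empty i)
    | succ j ih =>
      obtain ⟨V, S, b, hs, hj⟩ := ih
      obtain ⟨V', S', b', hs', hj'⟩ := step hM hF hst hs
      exact ⟨V', S', b', hs', by omega⟩
  obtain ⟨V, S, b, -, hj⟩ := h (n + 1)
  have h2 := Submodule.finrank_le V
  rw [Module.finrank_fin_fun] at h2
  omega

/-- freezing the coordinates outside `U` -/
def sub (U : Finset (Fin n)) (c b : Fin n → ℤ) : Fin n → ℤ := fun i => if i ∈ U then b i else c i

/-- the coordinate projection -/
noncomputable def proj (U : Finset (Fin n)) : (Fin n → ℝ) →ₗ[ℝ] (Fin n → ℝ) where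
  toFun x := fun i => if i ∈ U then x i else 0
  map_add' x y := by
    funext i
    simp only [Pi.add_apply]
    split_ifs <;> simp
  map_smul' r x := by
    funext i
    simp only [Pi.smul_apply, smul_eq_mul, RingHom.id_apply]
    split_ifs <;> simp

/-- the frozen part -/
def froz (U : Finset (Fin n)) (c : Fin n → ℤ) : Fin n → ℝ :=
  fun i => if i ∈ U then 0 else (c i : ℝ)

lemma cast_sub' (U : Finset (Fin n)) (c b : Fin n → ℤ) :
    cast (sub U c b) = proj U (cast b) + froz U c := by
  funext i
  simp only [cast, sub, proj, froz, LinearMap.coe_mk, AddHom.coe_mk, Pi.add_apply]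
  split_ifs <;> simp

/-- the forms of a frozen function -/
noncomputable def Forms.slice (F : Forms n) (P : (Fin n → ℝ) →ₗ[ℝ] (Fin n → ℝ))
    (p : Fin n → ℝ) : Forms n where
  T := LinearMap.mk₂ ℝ (fun x y => (F.T (P x) (P y)).comp P)
    (fun x x' y => by ext; simp) (fun r x y => by ext; simp)
    (fun x y y' => by ext; simp) (fun r x y => by ext; simp)
  B := LinearMap.mk₂ ℝ (fun x y => F.B (P x) (P y) + 3 * F.T (P x) (P y) p)
    (fun x x' y => by simp; ring) (fun r x y => by simp; ring)
    (fun x y y' => by simp; ring) (fun r x y => by simp; ring)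
  L :=
    { toFun := fun x => F.L (P x) + 2 * F.B (P x) p + 3 * F.T (P x) p p
      map_add' := fun x y => by simp; ring
      map_smul' := fun r x => by simp; ring }
  c := F.eval p
  Ts1 := fun x y z => by simp [F.Ts1 (P x) (P y)]
  Ts2 := fun x y z => by simp [F.Ts2 (P x) (P y) (P z)]
  Bs := fun x y => by simp [F.Bs (P x) (P y), F.Ts1 (P x) (P y) p]

lemma Forms.slice_eval (F : Forms n) (P : (Fin n → ℝ) →ₗ[ℝ] (Fin n → ℝ))
    (p x : Fin n → ℝ) : (F.slice P p).eval x = F.eval (P x + p) := by
  rw [add_comm, F.eval_add]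
  simp only [Forms.eval, Forms.slice, Forms.cc, LinearMap.mk₂_apply, LinearMap.comp_apply,
    LinearMap.coe_mk, AddHom.coe_mk]
  rw [F.Ts2 (P x) (P x) p]
  ring

lemma isCubic_sub {f : (Fin n → ℤ) → ℤ} (hf : IsCubic n f) (U : Finset (Fin n))
    (c : Fin n → ℤ) : IsCubic n (fun b => f (sub U c b)) := by
  constructor
  · intro a w v
    have h := hf.dvd (sub U c a) (fun i => if i ∈ U then w i else 0) v
    have h2 : (fun i => sub U c a i + v * (if i ∈ U then w i else 0))
        = sub U c (fun i => a i + v * w i) := by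
      funext i
      simp only [sub]
      split_ifs <;> simp
    rw [h2] at h
    exact h
  · obtain ⟨F, hF⟩ := hf.rep
    refine ⟨F.slice (proj U) (froz U c), fun b => ?_⟩
    rw [F.slice_eval, ← cast_sub', hF]

/-- the base inequality passes to frozen slices -/
lemma star_sub {f : (Fin n → ℤ) → ℤ} {M0 : ℤ} (hst : Star f M0) (U : Finset (Fin n))
    {c : Fin n → ℤ} (hc : ∀ i, 0 ≤ c i) : Star (fun b => f (sub U c b)) M0 := by
  intro a ha hfa w hw
  have hnn : ∀ i, 0 ≤ sub U c a i := by
    intro i
    simp only [sub]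
    split_ifs
    · exact ha i
    · exact hc i
  have h2 : (fun i => sub U c a i + f (sub U c a) * (if i ∈ U then w i else 0))
      = sub U c (fun i => a i + f (sub U c a) * w i) := by
    funext i
    simp only [sub]
    split_ifs <;> simp
  have h := hst (sub U c a) hnn hfa (fun i => if i ∈ U then w i else 0) (fun i => by
    have h3 := congrFun h2 i
    rw [h3]
    simp only [sub]
    split_ifs with hi
    · exact hw i
    · exact hc i)
  rw [h2] at h
  exact h

/-- **Core theorem**, in terms of the base inequality. -/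
theorem core_star {f : (Fin n → ℤ) → ℤ}
    (hf : ∃ F : Forms n, ∀ a : Fin n → ℤ, (f a : ℝ) = F.eval (cast a)) {M0 : ℤ} (hM : 0 ≤ M0)
    (hst : Star f M0) :
    ∃ K : ℤ, ∀ a : Fin n → ℤ, (∀ i, 0 ≤ a i) → f a ≤ K := by
  classical
  by_contra hcon
  push Not at hcon
  -- the property: unbounded on a frozen slice
  let Q : Finset (Fin n) → Prop := fun U => ∃ c : Fin n → ℤ, (∀ i, 0 ≤ c i) ∧
    ∀ K : ℤ, ∃ a : Fin n → ℤ, (∀ i, 0 ≤ a i) ∧ K < f (sub U c a)
  have hQ0 : Q Finset.univ := by
    refine ⟨0, fun i => le_rfl, fun K => ?_⟩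
    obtain ⟨a, ha, hK⟩ := hcon K
    refine ⟨a, ha, ?_⟩
    have : sub Finset.univ 0 a = a := by funext i; simp [sub]
    rwa [this]
  obtain ⟨U, hQU, hmin⟩ := exists_minimal_of_wellFoundedLT Q ⟨_, hQ0⟩
  obtain ⟨c, hc, hunb⟩ := hQU
  have hsl : ∀ i ∈ U, ¬ Q (U.erase i) := by
    intro i hi hQ
    have h1 := hmin hQ (Finset.erase_subset i U)
    exact Finset.notMem_erase i U (h1 hi)
  set g : (Fin n → ℤ) → ℤ := fun b => f (sub U c b) with hg
  have hgc : ∃ F : Forms n, ∀ a : Fin n → ℤ, (g a : ℝ) = F.eval (cast a) := by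
    obtain ⟨F, hF⟩ := hf
    refine ⟨F.slice (proj U) (froz U c), fun b => ?_⟩
    rw [F.slice_eval, ← cast_sub', hF]
  have hgst : Star g M0 := star_sub hst U hc
  choose a ha hak using fun k : ℕ => hunb (k : ℤ)
  -- the free coordinates tend to infinity
  have hcoord : ∀ i ∈ U, Tendsto (fun k => a k i) atTop atTop := by
    intro i hi
    rw [tendsto_atTop]
    intro N
    by_contra hN
    rw [Filter.not_eventually] at hN
    -- bounds on the slices
    have hb : ∀ m : ℕ, ∃ K : ℤ, ∀ x : Fin n → ℤ, (∀ j, 0 ≤ x j) →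
        f (sub (U.erase i) (Function.update c i (m : ℤ)) x) ≤ K := by
      intro m
      by_contra hm
      push Not at hm
      refine hsl i hi ⟨Function.update c i (m : ℤ), fun j => ?_, hm⟩
      by_cases hj : j = i
      · subst hj; simp
      · rw [Function.update_of_ne hj]; exact hc j
    choose K hK using hb
    have hev : ∀ᶠ k : ℕ in atTop, ∑ m ∈ Finset.range N.toNat, |K m| < (k : ℤ) :=
      (tendsto_natCast_atTop_atTop (R := ℤ)).eventually_gt_atTop _
    obtain ⟨k, h1, h2⟩ := (hN.and_eventually hev).exists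
    push Not at h1
    have h3 : (((a k i).toNat : ℕ) : ℤ) = a k i := Int.toNat_of_nonneg (ha k i)
    have h4 : sub (U.erase i) (Function.update c i (((a k i).toNat : ℕ) : ℤ)) (a k)
        = sub U c (a k) := by
      funext j
      by_cases hj : j = i
      · subst hj
        simp [sub, hi, ha k j]
      · simp [sub, hj]
    have h5 := hK (a k i).toNat (a k) (ha k)
    rw [h4] at h5
    have h6 : (a k i).toNat ∈ Finset.range N.toNat := by
      rw [Finset.mem_range]; omega
    have h7 : |K (a k i).toNat| ≤ ∑ m ∈ Finset.range N.toNat, |K m| :=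
      Finset.single_le_sum (f := fun m => |K m|) (fun m _ => abs_nonneg _) h6
    have h8 := le_abs_self (K (a k i).toNat)
    have h9 := hak k
    omega
  -- the final sequence
  obtain ⟨F, hF⟩ := hgc
  set b : ℕ → Fin n → ℤ := fun k i => if i ∈ U then a k i else (k : ℤ) with hb
  have hgb : ∀ k, g (b k) = g (a k) := by
    intro k
    simp only [hg]
    congr 1
    funext i
    simp only [sub, hb]
    split_ifs <;> rfl
  refine no_state hM hF hgst (a := b) ?_ ?_ ?_
  · intro k i
    simp only [hb]
    split_ifs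
    · exact ha k i
    · positivity
  · intro i
    by_cases hi : i ∈ U
    · have h1 : (fun k => (b k i : ℝ)) = fun k => ((a k i : ℤ) : ℝ) := by
        funext k; simp [hb, hi]
      rw [h1]
      exact (tendsto_intCast_atTop_atTop (R := ℝ)).comp (hcoord i hi)
    · have h1 : (fun k => (b k i : ℝ)) = fun k : ℕ => (k : ℝ) := by
        funext k; simp [hb, hi]
      rw [h1]
      exact tendsto_natCast_atTop_atTop
  · refine tendsto_atTop_mono (fun k => ?_) (tendsto_natCast_atTop_atTop (R := ℝ))
    rw [← hF, hgb]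
    have := hak k
    have h2 : ((k : ℤ) : ℝ) ≤ ((g (a k) : ℤ) : ℝ) := by exact_mod_cast this.le
    simpa using h2

/-- **Core theorem.** -/
theorem core {f : (Fin n → ℤ) → ℤ} (hf : IsCubic n f) {M0 : ℤ} (hM : 0 ≤ M0)
    (hno : ∀ a b : Fin n → ℤ, (∀ i, 0 ≤ a i) → (∀ i, 0 ≤ b i) → M0 < f a → f a < f b →
      ¬ f a ∣ f b) :
    ∃ K : ℤ, ∀ a : Fin n → ℤ, (∀ i, 0 ≤ a i) → f a ≤ K :=
  core_star hf.rep hM (star_of_noPair hf hno)

end PoolH39.CUB
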