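import Mathlib

/-!
# Cubic polynomial functions: abstract form data

`Forms n` is a real polynomial function of degree at most three on `Fin n → ℝ`, given by a
symmetric trilinear form, a symmetric bilinear form, a linear form and a constant.
`IsCubic n f` says that `f : (Fin n → ℤ) → ℤ` is such a function on integer points and
respects congruences.
-/

namespace PoolH39.CUB

/-- A real polynomial of degree at most three, by its symmetric forms. -/
structure Forms (n : ℕ) where
  T : (Fin n → ℝ) →ₗ[ℝ] (Fin n → ℝ) →ₗ[ℝ] (Fin n → ℝ) →ₗ[ℝ] ℝ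
  B : (Fin n → ℝ) →ₗ[ℝ] (Fin n → ℝ) →ₗ[ℝ] ℝ
  L : (Fin n → ℝ) →ₗ[ℝ] ℝ
  c : ℝ
  Ts1 : ∀ x y z, T x y z = T y x z
  Ts2 : ∀ x y z, T x y z = T x z y
  Bs : ∀ x y, B x y = B y x

/-- The value of the polynomial at a real point. -/
def Forms.eval {n : ℕ} (F : Forms n) (x : Fin n → ℝ) : ℝ :=
  F.T x x x + F.B x x + F.L x + F.c

/-- An integer point as a real point. -/
def cast {n : ℕ} (a : Fin n → ℤ) : Fin n → ℝ := fun i => (a i : ℝ)

/-- `f` is a polynomial function of degree at most three on integer points which respects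
congruences (every polynomial with integer coefficients of degree at most three is one). -/
structure IsCubic (n : ℕ) (f : (Fin n → ℤ) → ℤ) : Prop where
  dvd : ∀ (a w : Fin n → ℤ) (v : ℤ), v ∣ f (fun i => a i + v * w i) - f a
  rep : ∃ F : Forms n, ∀ a : Fin n → ℤ, (f a : ℝ) = F.eval (cast a)

end PoolH39.CUB
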