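import Pool.Agent.Helper39.CUB.Basic

/-!
# Simultaneous recurrence, the base inequality and its first consequences
-/

namespace PoolH39.CUB

open Filter Topology

variable {n : ℕ}

/-- simultaneous recurrence (Dirichlet) -/
lemma dirichlet (e : Fin n → ℝ) {ε : ℝ} (hε : 0 < ε) (N : ℕ) :
    ∃ s : ℕ, N ≤ s ∧ 1 ≤ s ∧ ∃ w : Fin n → ℤ, ∀ i, |(w i : ℝ) - s * e i| < ε := by
  have hc : IsCompact (Set.Icc (0 : Fin n → ℝ) 1) := isCompact_Icc
  have hmem : ∀ k : ℕ, (fun i => Int.fract ((k : ℝ) * e i)) ∈ Set.Icc (0 : Fin n → ℝ) 1 := by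
    intro k
    refine ⟨fun i => Int.fract_nonneg _, fun i => (Int.fract_lt_one _).le⟩
  obtain ⟨z, -, φ, hφ, hlim⟩ := hc.tendsto_subseq hmem
  rw [Metric.tendsto_atTop] at hlim
  obtain ⟨p, hp⟩ := hlim (ε / 2) (by positivity)
  set q := p + N + 1 with hq
  have h1 := hp p le_rfl
  have h2 := hp q (by omega)
  have hpq : φ p + (N + 1) ≤ φ q := by
    have : ∀ m, φ p + m ≤ φ (p + m) := by
      intro m
      induction m with
      | zero => simp
      | succ m ih =>
        have := hφ (show p + m < p + (m + 1) by omega)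
        omega
    exact this (N + 1)
  refine ⟨φ q - φ p, by omega, by omega,
    fun i => ⌊(φ q : ℝ) * e i⌋ - ⌊(φ p : ℝ) * e i⌋, fun i => ?_⟩
  have h3 : dist (Int.fract ((φ q : ℝ) * e i)) (z i) < ε / 2 :=
    (dist_le_pi_dist (fun i => Int.fract ((φ q : ℝ) * e i)) z i).trans_lt h2
  have h4 : dist (Int.fract ((φ p : ℝ) * e i)) (z i) < ε / 2 :=
    (dist_le_pi_dist (fun i => Int.fract ((φ p : ℝ) * e i)) z i).trans_lt h1
  rw [Real.dist_eq] at h3 h4
  have h5 : ((φ q - φ p : ℕ) : ℝ) = (φ q : ℝ) - φ p := by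
    rw [Nat.cast_sub (by omega)]
  rw [h5]
  push_cast
  have h6 := Int.floor_add_fract ((φ q : ℝ) * e i)
  have h7 := Int.floor_add_fract ((φ p : ℝ) * e i)
  have h8 : (⌊(φ q : ℝ) * e i⌋ : ℝ) - ⌊(φ p : ℝ) * e i⌋ - ((φ q : ℝ) - φ p) * e i
      = (Int.fract ((φ p : ℝ) * e i) - z i) - (Int.fract ((φ q : ℝ) * e i) - z i) := by
    linarith
  rw [h8]
  calc _ ≤ |Int.fract ((φ p : ℝ) * e i) - z i| + |Int.fract ((φ q : ℝ) * e i) - z i| :=
        abs_sub _ _
    _ < ε := by linarith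

/-- the base inequality -/
def Star (f : (Fin n → ℤ) → ℤ) (M0 : ℤ) : Prop :=
  ∀ a : Fin n → ℤ, (∀ i, 0 ≤ a i) → M0 < f a → ∀ w : Fin n → ℤ,
    (∀ i, 0 ≤ a i + f a * w i) → f (fun i => a i + f a * w i) ≤ f a

lemma star_of_noPair {f : (Fin n → ℤ) → ℤ} (hf : IsCubic n f) {M0 : ℤ}
    (hno : ∀ a b : Fin n → ℤ, (∀ i, 0 ≤ a i) → (∀ i, 0 ≤ b i) → M0 < f a → f a < f b →
      ¬ f a ∣ f b) : Star f M0 := by
  intro a ha hfa w hw
  by_contra hc
  push Not at hc
  refine hno a _ ha hw hfa hc ?_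
  have h := hf.dvd a w (f a)
  have h2 := dvd_add h (dvd_refl (f a))
  simpa using h2

lemma Forms.cont_eval (F : Forms n) : Continuous F.eval := by
  unfold Forms.eval
  exact ((F.cont_T.add F.cont_B).add (cont_lin F.L)).add continuous_const

/-- cubic asymptotics -/
lemma Forms.tendsto_cubic (F : Forms n) {t : ℕ → ℝ} {p : ℕ → Fin n → ℝ} {P : Fin n → ℝ}
    (ht : Tendsto t atTop atTop) (hp : Tendsto (fun k => (t k)⁻¹ • p k) atTop (𝓝 P)) :
    Tendsto (fun k => F.eval (p k) / (t k) ^ 3) atTop (𝓝 (F.T P P P)) := by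
  have hti : Tendsto (fun k => (t k)⁻¹) atTop (𝓝 0) := ht.inv_tendsto_atTop
  have h1 : Tendsto (fun k => F.T ((t k)⁻¹ • p k) ((t k)⁻¹ • p k) ((t k)⁻¹ • p k)) atTop
      (𝓝 (F.T P P P)) := (F.cont_T.tendsto P).comp hp
  have h2 : Tendsto (fun k => F.B ((t k)⁻¹ • p k) ((t k)⁻¹ • p k)) atTop
      (𝓝 (F.B P P)) := (F.cont_B.tendsto P).comp hp
  have h3 : Tendsto (fun k => F.L ((t k)⁻¹ • p k)) atTop
      (𝓝 (F.L P)) := ((cont_lin F.L).tendsto P).comp hp
  have h4 : Tendsto (fun k => F.T ((t k)⁻¹ • p k) ((t k)⁻¹ • p k) ((t k)⁻¹ • p k)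
      + F.B ((t k)⁻¹ • p k) ((t k)⁻¹ • p k) * (t k)⁻¹
      + F.L ((t k)⁻¹ • p k) * ((t k)⁻¹ * (t k)⁻¹)
      + F.c * ((t k)⁻¹ * ((t k)⁻¹ * (t k)⁻¹))) atTop
      (𝓝 (F.T P P P + F.B P P * 0 + F.L P * (0 * 0) + F.c * (0 * (0 * 0)))) :=
    ((h1.add (h2.mul hti)).add (h3.mul (hti.mul hti))).add
      ((tendsto_const_nhds).mul (hti.mul (hti.mul hti)))
  have h5 : F.T P P P + F.B P P * 0 + F.L P * (0 * 0) + F.c * (0 * (0 * 0)) = F.T P P P := by
    ring
  rw [h5] at h4
  refine h4.congr' ?_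
  filter_upwards [ht.eventually_gt_atTop 0] with k hk
  have hk' : t k ≠ 0 := hk.ne'
  unfold Forms.eval
  simp only [map_smul, LinearMap.smul_apply, smul_eq_mul]
  field_simp

/-- quadratic asymptotics of the part of degree at most two -/
lemma Forms.tendsto_quad (F : Forms n) {t : ℕ → ℝ} {p : ℕ → Fin n → ℝ} {P : Fin n → ℝ}
    (ht : Tendsto t atTop atTop) (hp : Tendsto (fun k => (t k)⁻¹ • p k) atTop (𝓝 P)) :
    Tendsto (fun k => (F.B (p k) (p k) + F.L (p k) + F.c) / (t k) ^ 2) atTop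
      (𝓝 (F.B P P)) := by
  have hti : Tendsto (fun k => (t k)⁻¹) atTop (𝓝 0) := ht.inv_tendsto_atTop
  have h2 : Tendsto (fun k => F.B ((t k)⁻¹ • p k) ((t k)⁻¹ • p k)) atTop
      (𝓝 (F.B P P)) := (F.cont_B.tendsto P).comp hp
  have h3 : Tendsto (fun k => F.L ((t k)⁻¹ • p k)) atTop
      (𝓝 (F.L P)) := ((cont_lin F.L).tendsto P).comp hp
  have h4 : Tendsto (fun k => F.B ((t k)⁻¹ • p k) ((t k)⁻¹ • p k)
      + F.L ((t k)⁻¹ • p k) * (t k)⁻¹
      + F.c * ((t k)⁻¹ * (t k)⁻¹)) atTop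
      (𝓝 (F.B P P + F.L P * 0 + F.c * (0 * 0))) :=
    (h2.add (h3.mul hti)).add ((tendsto_const_nhds).mul (hti.mul hti))
  have h5 : F.B P P + F.L P * 0 + F.c * (0 * 0) = F.B P P := by ring
  rw [h5] at h4
  refine h4.congr' ?_
  filter_upwards [ht.eventually_gt_atTop 0] with k hk
  have hk' : t k ≠ 0 := hk.ne'
  simp only [map_smul, LinearMap.smul_apply, smul_eq_mul]
  field_simp

section
variable {f : (Fin n → ℤ) → ℤ} {M0 : ℤ} {F : Forms n}

/-- the cubic part is nonpositive on the orthant -/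
lemma T_nonpos (hM : 0 ≤ M0) (hF : ∀ a, (f a : ℝ) = F.eval (cast a)) (hst : Star f M0)
    {a : Fin n → ℤ} (ha : ∀ i, 0 ≤ a i) (hfa : M0 < f a) {x : Fin n → ℝ} (hx : ∀ i, 0 ≤ x i) :
    F.T x x x ≤ 0 := by
  by_contra hc
  push Not at hc
  have hv : 0 < f a := hM.trans_lt hfa
  have hvr : (0 : ℝ) < (f a : ℝ) := by exact_mod_cast hv
  set w : ℕ → Fin n → ℤ := fun s i => ⌊(s : ℝ) * x i⌋ with hw
  have hw0 : ∀ s i, 0 ≤ w s i := fun s i => Int.floor_nonneg.mpr (by have := hx i; positivity)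
  set p : ℕ → Fin n → ℝ := fun s => cast (fun i => a i + f a * w s i) with hp
  have hlim : Tendsto (fun s : ℕ => ((s : ℝ))⁻¹ • p s) atTop (𝓝 ((f a : ℝ) • x)) := by
    rw [tendsto_pi_nhds]
    intro i
    have hsi : Tendsto (fun s : ℕ => ((s : ℝ))⁻¹) atTop (𝓝 0) :=
      tendsto_inv_atTop_nhds_zero_nat
    have h1 : Tendsto (fun s : ℕ => ((s : ℝ))⁻¹ * (a i : ℝ)
        + (f a : ℝ) * ((w s i : ℝ) * ((s : ℝ))⁻¹)) atTop
        (𝓝 (0 * (a i : ℝ) + (f a : ℝ) * x i)) := by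
      refine (hsi.mul_const _).add (Tendsto.const_mul _ ?_)
      have h2 : Tendsto (fun s : ℕ => x i - Int.fract ((s : ℝ) * x i) * ((s : ℝ))⁻¹) atTop
          (𝓝 (x i - 0)) := by
        refine tendsto_const_nhds.sub ?_
        refine squeeze_zero (g := fun s : ℕ => ((s : ℝ))⁻¹) (fun s => ?_) (fun s => ?_) hsi
        · have := Int.fract_nonneg ((s : ℝ) * x i); positivity
        · have := (Int.fract_lt_one ((s : ℝ) * x i)).le
          have h3 : (0 : ℝ) ≤ ((s : ℝ))⁻¹ := by positivity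
          nlinarith
      rw [sub_zero] at h2
      refine h2.congr' ?_
      filter_upwards [eventually_gt_atTop 0] with s hs
      have hs' : (s : ℝ) ≠ 0 := by exact_mod_cast hs.ne'
      have h4 := Int.floor_add_fract ((s : ℝ) * x i)
      have h5 : (w s i : ℝ) = (s : ℝ) * x i - Int.fract ((s : ℝ) * x i) := by
        rw [hw]; linarith
      rw [h5, sub_mul]; field_simp
    rw [zero_mul, zero_add] at h1
    have h6 : ((f a : ℝ) • x) i = (f a : ℝ) * x i := by simp
    rw [h6]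
    refine h1.congr fun s => ?_
    simp only [hp, cast, Pi.smul_apply, smul_eq_mul]
    push_cast; ring
  have hcub := F.tendsto_cubic (t := fun s : ℕ => (s : ℝ)) tendsto_natCast_atTop_atTop hlim
  have hpos : 0 < F.T ((f a : ℝ) • x) ((f a : ℝ) • x) ((f a : ℝ) • x) := by
    simp only [map_smul, LinearMap.smul_apply, smul_eq_mul]
    positivity
  have hub : ∀ s, F.eval (p s) ≤ (f a : ℝ) := by
    intro s
    have h7 := hst a ha hfa (w s) (fun i => by
      have := hw0 s i; have := ha i; positivity)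
    have h8 := hF (fun i => a i + f a * w s i)
    have h9 : ((f (fun i => a i + f a * w s i) : ℤ) : ℝ) ≤ (f a : ℝ) := by exact_mod_cast h7
    rw [h8] at h9
    exact h9
  have h10 : Tendsto (fun s : ℕ => (f a : ℝ) / (s : ℝ) ^ 3) atTop (𝓝 0) := by
    refine tendsto_const_nhds.div_atTop ?_
    exact (tendsto_pow_atTop (by norm_num)).comp tendsto_natCast_atTop_atTop
  have h11 : F.T ((f a : ℝ) • x) ((f a : ℝ) • x) ((f a : ℝ) • x) ≤ 0 := by
    refine le_of_tendsto_of_tendsto hcub h10 ?_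
    filter_upwards [eventually_gt_atTop 0] with s hs
    have : (0 : ℝ) < (s : ℝ) := by exact_mod_cast hs
    exact div_le_div_of_nonneg_right (hub s) (by positivity)
  linarith

/-- Lemma (C): the linear change along positive vectors of a vanishing subspace is
nonpositive at every point with a large value -/
lemma cc_nonpos (hM : 0 ≤ M0) (hF : ∀ a, (f a : ℝ) = F.eval (cast a)) (hst : Star f M0)
    {V : Submodule ℝ (Fin n → ℝ)} (hV : F.Van V)
    {a : Fin n → ℤ} (ha : ∀ i, 0 ≤ a i) (hfa : M0 < f a) {e : Fin n → ℝ} (heV : e ∈ V)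
    (he : ∀ i, 0 ≤ e i) : F.cc e (cast a) ≤ 0 := by
  by_contra hc
  push Not at hc
  have hv : 0 < f a := hM.trans_lt hfa
  have hvr : (0 : ℝ) < (f a : ℝ) := by exact_mod_cast hv
  set η := F.cc e (cast a) / 2 with hη
  have hη0 : 0 < η := by positivity
  have h1 : ∀ᶠ y in 𝓝 (cast a), η < F.cc e y :=
    ((F.cont_cc e).tendsto (cast a)).eventually_const_lt (by rw [hη]; linarith)
  have h2 : ∀ᶠ y in 𝓝 (cast a), F.eval (cast a) - 1 < F.eval y :=
    (F.cont_eval.tendsto (cast a)).eventually_const_lt (by linarith)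
  obtain ⟨δ, hδ, hball⟩ := Metric.eventually_nhds_iff.mp (h1.and h2)
  obtain ⟨N, hN⟩ := exists_nat_gt ((1 : ℝ) / ((f a : ℝ) * η))
  obtain ⟨s, hsN, hs1, w, hw⟩ := dirichlet e (ε := min 1 (δ / (2 * (f a : ℝ)))) (by positivity) N
  have hw0 : ∀ i, 0 ≤ w i := by
    intro i
    have h3 := (hw i).trans_le (min_le_left _ _)
    have h4 := (abs_lt.mp h3).1
    have h5 : (0 : ℝ) ≤ (s : ℝ) * e i := by have := he i; positivity
    have h6 : (-1 : ℝ) < (w i : ℝ) := by linarith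
    have h7 : (-1 : ℤ) < w i := by exact_mod_cast h6
    omega
  set y : Fin n → ℝ := fun i => (a i : ℝ) + (f a : ℝ) * ((w i : ℝ) - s * e i) with hy
  have hyd : dist y (cast a) < δ := by
    have h3 : dist y (cast a) ≤ δ / 2 := by
      rw [dist_pi_le_iff (by positivity)]
      intro i
      rw [Real.dist_eq]
      have h4 := (hw i).trans_le (min_le_right _ _)
      have h5 : y i - cast a i = (f a : ℝ) * ((w i : ℝ) - s * e i) := by
        simp only [hy, cast]; ring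
      rw [h5, abs_mul, abs_of_pos hvr]
      calc (f a : ℝ) * |(w i : ℝ) - s * e i| ≤ (f a : ℝ) * (δ / (2 * (f a : ℝ))) :=
            mul_le_mul_of_nonneg_left h4.le hvr.le
        _ = δ / 2 := by field_simp
    linarith
  obtain ⟨hA, hB⟩ := hball hyd
  have hdec : cast (fun i => a i + f a * w i) = y + ((f a : ℝ) * s) • e := by
    funext i
    simp only [cast, hy, Pi.add_apply, Pi.smul_apply, smul_eq_mul]
    push_cast; ring
  have hval := hF (fun i => a i + f a * w i)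
  rw [hdec, hV.eval_add (V.smul_mem _ heV), F.cc_smul] at hval
  have hub := hst a ha hfa w (fun i => by have := hw0 i; have := ha i; positivity)
  have hub' : ((f (fun i => a i + f a * w i) : ℤ) : ℝ) ≤ (f a : ℝ) := by exact_mod_cast hub
  rw [hval] at hub'
  have hfa' := hF a
  have hsr : (N : ℝ) ≤ (s : ℝ) := by exact_mod_cast hsN
  have h8 : 1 < (s : ℝ) * ((f a : ℝ) * η) := by
    have h9 : 1 < (N : ℝ) * ((f a : ℝ) * η) := by
      rwa [div_lt_iff₀ (by positivity)] at hN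
    have h10 : (N : ℝ) * ((f a : ℝ) * η) ≤ (s : ℝ) * ((f a : ℝ) * η) :=
      mul_le_mul_of_nonneg_right hsr (by positivity)
    linarith
  have h11 : (s : ℝ) * ((f a : ℝ) * η) ≤ (f a : ℝ) * s * F.cc e y := by
    have h12 : (0 : ℝ) ≤ (f a : ℝ) * s := by positivity
    nlinarith
  linarith

/-- quadratic part along a direction of double vanishing -/
lemma B_nonpos (hM : 0 ≤ M0) (hF : ∀ a, (f a : ℝ) = F.eval (cast a)) (hst : Star f M0)
    {a : Fin n → ℤ} (ha : ∀ i, 0 ≤ a i) (hfa : M0 < f a) {U : Fin n → ℝ}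
    (hU : ∀ i, 0 ≤ U i) (hT : ∀ x, F.T U U x = 0) : F.B U U ≤ 0 := by
  by_contra hc
  push Not at hc
  have hv : 0 < f a := hM.trans_lt hfa
  have hvr : (0 : ℝ) < (f a : ℝ) := by exact_mod_cast hv
  have h1 : ∀ᶠ y in 𝓝 (cast a), F.cc U (cast a) - 1 < F.cc U y :=
    ((F.cont_cc U).tendsto (cast a)).eventually_const_lt (by linarith)
  have h2 : ∀ᶠ y in 𝓝 (cast a), F.eval (cast a) - 1 < F.eval y :=
    (F.cont_eval.tendsto (cast a)).eventually_const_lt (by linarith)
  obtain ⟨δ, hδ, hball⟩ := Metric.eventually_nhds_iff.mp (h1.and h2)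
  obtain ⟨N, hN⟩ := exists_nat_gt ((|F.cc U (cast a) - 1| + 1) / ((f a : ℝ) * F.B U U))
  obtain ⟨s, hsN, hs1, w, hw⟩ := dirichlet U (ε := min 1 (δ / (2 * (f a : ℝ)))) (by positivity)
    (max N 1)
  have hw0 : ∀ i, 0 ≤ w i := by
    intro i
    have h3 := (hw i).trans_le (min_le_left _ _)
    have h4 := (abs_lt.mp h3).1
    have h5 : (0 : ℝ) ≤ (s : ℝ) * U i := by have := hU i; positivity
    have h6 : (-1 : ℝ) < (w i : ℝ) := by linarith
    have h7 : (-1 : ℤ) < w i := by exact_mod_cast h6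
    omega
  set y : Fin n → ℝ := fun i => (a i : ℝ) + (f a : ℝ) * ((w i : ℝ) - s * U i) with hy
  have hyd : dist y (cast a) < δ := by
    have h3 : dist y (cast a) ≤ δ / 2 := by
      rw [dist_pi_le_iff (by positivity)]
      intro i
      rw [Real.dist_eq]
      have h4 := (hw i).trans_le (min_le_right _ _)
      have h5 : y i - cast a i = (f a : ℝ) * ((w i : ℝ) - s * U i) := by
        simp only [hy, cast]; ring
      rw [h5, abs_mul, abs_of_pos hvr]
      calc (f a : ℝ) * |(w i : ℝ) - s * U i| ≤ (f a : ℝ) * (δ / (2 * (f a : ℝ))) :=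
            mul_le_mul_of_nonneg_left h4.le hvr.le
        _ = δ / 2 := by field_simp
    linarith
  obtain ⟨hA, hB⟩ := hball hyd
  have hdec : cast (fun i => a i + f a * w i) = y + ((f a : ℝ) * s) • U := by
    funext i
    simp only [cast, hy, Pi.add_apply, Pi.smul_apply, smul_eq_mul]
    push_cast; ring
  have hval := hF (fun i => a i + f a * w i)
  rw [hdec, F.eval_add, F.cc_smul] at hval
  simp only [map_smul, LinearMap.smul_apply, smul_eq_mul] at hval
  rw [hT y, hT U] at hval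
  have hub := hst a ha hfa w (fun i => by have := hw0 i; have := ha i; positivity)
  have hub' : ((f (fun i => a i + f a * w i) : ℤ) : ℝ) ≤ (f a : ℝ) := by exact_mod_cast hub
  rw [hval] at hub'
  have hfa' := hF a
  have hsr : (N : ℝ) ≤ (s : ℝ) := by exact_mod_cast (le_max_left N 1).trans hsN
  have hs1r : (1 : ℝ) ≤ (s : ℝ) := by exact_mod_cast hs1
  set K := |F.cc U (cast a) - 1| with hK
  have h8 : K + 1 < (s : ℝ) * ((f a : ℝ) * F.B U U) := by
    have h9 : K + 1 < (N : ℝ) * ((f a : ℝ) * F.B U U) := by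
      rwa [div_lt_iff₀ (by positivity)] at hN
    have h10 : (N : ℝ) * ((f a : ℝ) * F.B U U) ≤ (s : ℝ) * ((f a : ℝ) * F.B U U) :=
      mul_le_mul_of_nonneg_right hsr (by positivity)
    linarith
  have h11 : -K ≤ F.cc U y := by
    have := neg_abs_le (F.cc U (cast a) - 1)
    rw [← hK] at this
    linarith
  have hv1 : (1 : ℝ) ≤ (f a : ℝ) := by exact_mod_cast hv
  have hvs : (1 : ℝ) ≤ (f a : ℝ) * s := by nlinarith
  have h12 : 1 < (f a : ℝ) * s * F.cc U y + (f a : ℝ) * s * ((f a : ℝ) * s * F.B U U) := by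
    have h13 : 1 < F.cc U y + (f a : ℝ) * s * F.B U U := by
      have : (s : ℝ) * ((f a : ℝ) * F.B U U) = (f a : ℝ) * s * F.B U U := by ring
      linarith
    have h14 : (f a : ℝ) * s * F.cc U y + (f a : ℝ) * s * ((f a : ℝ) * s * F.B U U)
        = (f a : ℝ) * s * (F.cc U y + (f a : ℝ) * s * F.B U U) := by ring
    rw [h14]
    nlinarith
  nlinarith

end

end PoolH39.CUB
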