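import Pool.Agent.Helper39.CUB.Dir

/-!
# The key lemma: the limit direction of an unbounded sequence is a double zero
-/

namespace PoolH39.CUB

open Filter Topology

variable {n : ℕ} {f : (Fin n → ℤ) → ℤ} {M0 : ℤ} {F : Forms n}

/-- first and second order conditions at a positive zero of the cubic part -/
lemma order_cond (hTn : ∀ x : Fin n → ℝ, (∀ i, 0 ≤ x i) → F.T x x x ≤ 0)
    {S' : Set (Fin n)} {U : Fin n → ℝ} (hU1 : ∀ i ∈ S', 0 < U i) (hU0 : ∀ i ∉ S', U i = 0)
    (hUUU : F.T U U U = 0) {y : Fin n → ℝ} (hy : ∀ i ∉ S', 0 ≤ y i) :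
    F.T U U y ≤ 0 ∧ (F.T U U y = 0 → F.T U y y ≤ 0) := by
  have hev : ∀ᶠ ε in 𝓝[>] (0 : ℝ), ∀ i, 0 ≤ U i + ε * y i := by
    rw [eventually_all]
    intro i
    by_cases hi : i ∈ S'
    · have h1 : Tendsto (fun ε : ℝ => U i + ε * y i) (𝓝[>] 0) (𝓝 (U i + 0 * y i)) := by
        have hcont : Continuous fun ε : ℝ => U i + ε * y i := by fun_prop
        exact (hcont.tendsto 0).mono_left nhdsWithin_le_nhds
      have h2 : 0 < U i + 0 * y i := by rw [zero_mul, add_zero]; exact hU1 i hi
      filter_upwards [h1.eventually_const_lt h2] with ε hε using hε.le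
    · filter_upwards [self_mem_nhdsWithin] with ε hε
      have hε' : (0 : ℝ) < ε := hε
      rw [hU0 i hi]
      have := hy i hi
      positivity
  obtain ⟨ε₀, hε₀, hsub⟩ := mem_nhdsGT_iff_exists_Ioc_subset.mp hev
  have hε₀' : (0 : ℝ) < ε₀ := hε₀
  have hso := small_order (α := 3 * F.T U U y) (β := 3 * F.T U y y) (γ := F.T y y y) hε₀'
    (fun ε h1 h2 => by
      have h3 : ∀ i, 0 ≤ U i + ε * y i := hsub ⟨h1, h2⟩
      have h4 := hTn (U + ε • y) (fun i => by simpa using h3 i)
      rw [F.T_add3, hUUU] at h4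
      simp only [map_smul, LinearMap.smul_apply, smul_eq_mul] at h4
      nlinarith)
  refine ⟨by linarith [hso.1], fun h => ?_⟩
  have := hso.2 (by rw [h]; ring)
  linarith

/-- the key lemma -/
lemma key (hM : 0 ≤ M0) (hF : ∀ a, (f a : ℝ) = F.eval (cast a)) (hst : Star f M0)
    {a0 : Fin n → ℤ} (ha0 : ∀ i, 0 ≤ a0 i) (hfa0 : M0 < f a0)
    {S' : Set (Fin n)} {U : Fin n → ℝ} (hU1 : ∀ i ∈ S', 0 < U i) (hU0 : ∀ i ∉ S', U i = 0)
    {t : ℕ → ℝ} (ht : Tendsto t atTop atTop) {x : ℕ → Fin n → ℝ}
    (hx : Tendsto (fun k => (t k)⁻¹ • x k) atTop (𝓝 U))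
    (hxo : ∀ i ∉ S', Tendsto (fun k => x k i) atTop atTop)
    (hval : Tendsto (fun k => F.eval (x k)) atTop atTop) :
    (∀ y, F.T U U y = 0) ∧ F.B U U = 0 := by
  have hTn : ∀ x : Fin n → ℝ, (∀ i, 0 ≤ x i) → F.T x x x ≤ 0 := fun x hx =>
    T_nonpos hM hF hst ha0 hfa0 hx
  have hUnn : ∀ i, 0 ≤ U i := by
    intro i
    by_cases hi : i ∈ S'
    · exact (hU1 i hi).le
    · rw [hU0 i hi]
  have htpos := ht.eventually_gt_atTop 0
  have hvpos := hval.eventually_ge_atTop 0
  -- step (i)
  have hUUU : F.T U U U = 0 := by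
    refine le_antisymm (hTn U hUnn) ?_
    refine ge_of_tendsto (F.tendsto_cubic ht hx) ?_
    filter_upwards [htpos, hvpos] with k h1 h2
    positivity
  -- the remainder
  set z : ℕ → Fin n → ℝ := fun k => x k - t k • U with hz
  have hxz : ∀ k, x k = t k • U + z k := fun k => by simp [hz]
  have hz0 : Tendsto (fun k => (t k)⁻¹ • z k) atTop (𝓝 0) := by
    have h1 : Tendsto (fun k => (t k)⁻¹ • x k - U) atTop (𝓝 (U - U)) := hx.sub_const U
    rw [sub_self] at h1
    refine h1.congr' ?_
    filter_upwards [htpos] with k hk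
    simp only [hz, smul_sub, smul_smul]
    rw [inv_mul_cancel₀ hk.ne', one_smul]
  have hzn : Tendsto (fun k => ‖z k‖ / t k) atTop (𝓝 0) := by
    have h1 := hz0.norm
    rw [norm_zero] at h1
    refine h1.congr' ?_
    filter_upwards [htpos] with k hk
    rw [norm_smul, norm_inv, Real.norm_of_nonneg hk.le]
    field_simp
  have hzo : ∀ i ∉ S', ∀ k, z k i = x k i := by
    intro i hi k
    simp [hz, hU0 i hi]
  have hnn : ∀ lam : ℝ, 0 < lam → ∀ᶠ k in atTop, ∀ i, 0 ≤ ((lam * t k) • U + z k) i := by
    intro lam hlam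
    rw [eventually_all]
    intro i
    by_cases hi : i ∈ S'
    · have h1 : Tendsto (fun k => lam * U i + ((t k)⁻¹ • z k) i) atTop
          (𝓝 (lam * U i + (0 : Fin n → ℝ) i)) :=
        tendsto_const_nhds.add ((tendsto_pi_nhds.mp hz0) i)
      have h2 : 0 < lam * U i + (0 : Fin n → ℝ) i := by
        have := hU1 i hi
        simp only [Pi.zero_apply, add_zero]; positivity
      filter_upwards [h1.eventually_const_lt h2, htpos] with k h3 h4
      simp only [Pi.smul_apply, smul_eq_mul] at h3
      simp only [Pi.add_apply, Pi.smul_apply, smul_eq_mul]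
      have h5 : lam * t k * U i + z k i = t k * (lam * U i + (t k)⁻¹ * z k i) := by
        field_simp
      rw [h5]; positivity
    · filter_upwards [(hxo i hi).eventually_ge_atTop 0] with k h1
      simp only [Pi.add_apply, Pi.smul_apply, smul_eq_mul]
      rw [hzo i hi k, hU0 i hi, mul_zero, zero_add]
      exact h1
  have hnn1 : ∀ᶠ k in atTop, ∀ i, 0 ≤ x k i := by
    filter_upwards [hnn 1 one_pos] with k hk i
    have := hk i
    rw [one_mul, ← hxz k] at this
    exact this
  have hQ := F.tendsto_quad ht hx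
  -- step (ii)
  set A : Fin n → ℝ := fun i => F.T U U (Pi.single i 1) with hA
  have hsum : ∀ y : Fin n → ℝ, F.T U U y = ∑ i, y i * A i := fun y => lin_eq_sum (F.T U U) y
  have hAle : ∀ i, A i ≤ 0 := by
    intro i
    refine (order_cond hTn hU1 hU0 hUUU (y := Pi.single i 1) fun j hj => ?_).1
    by_cases hji : j = i
    · subst hji; simp
    · simp [Pi.single_apply, hji]
  have hA0 : ∀ i ∈ S', A i = 0 := by
    intro i hi
    refine le_antisymm (hAle i) ?_
    have h1 := (order_cond hTn hU1 hU0 hUUU (y := -Pi.single i 1) fun j hj => ?_).1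
    · rw [map_neg] at h1
      have : -A i ≤ 0 := h1
      linarith
    · have hji : j ≠ i := fun h => hj (h ▸ hi)
      simp [Pi.single_apply, hji]
  have hAll : ∀ i, A i = 0 := by
    by_contra hcon
    push Not at hcon
    obtain ⟨i₀, hi₀⟩ := hcon
    have hi₀S : i₀ ∉ S' := fun h => hi₀ (hA0 i₀ h)
    have hi₀neg : A i₀ < 0 := lt_of_le_of_ne (hAle i₀) hi₀
    obtain ⟨C, hC0, hCT, -, -⟩ := F.bound
    set K : ℝ := ∑ i, |A i|⁻¹ with hK
    have hK0 : 0 ≤ K := Finset.sum_nonneg fun i _ => by positivity
    set α : ℕ → ℝ := fun k => - F.T U U (z k) with hα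
    have hterm : ∀ᶠ k in atTop, ∀ i, 0 ≤ -(z k i * A i) := by
      rw [eventually_all]
      intro i
      by_cases hi : i ∈ S'
      · exact Eventually.of_forall fun k => by rw [hA0 i hi]; simp
      · filter_upwards [(hxo i hi).eventually_ge_atTop 0] with k hk
        rw [hzo i hi k]
        have := hAle i
        nlinarith
    have hαsum : ∀ k, α k = ∑ i, -(z k i * A i) := by
      intro k
      rw [hα]
      simp only
      rw [hsum, Finset.sum_neg_distrib]
    have hαge : ∀ᶠ k in atTop, ∀ i, -(z k i * A i) ≤ α k := by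
      filter_upwards [hterm] with k hk i
      rw [hαsum k]
      exact Finset.single_le_sum (f := fun i => -(z k i * A i)) (fun j _ => hk j)
        (Finset.mem_univ i)
    have hαinf : Tendsto α atTop atTop := by
      have h1 : Tendsto (fun k => x k i₀ * (-A i₀)) atTop atTop :=
        (hxo i₀ hi₀S).atTop_mul_const (by linarith)
      refine tendsto_atTop_mono' _ ?_ h1
      filter_upwards [hαge] with k hk
      have := hk i₀
      rw [hzo i₀ hi₀S k] at this
      linarith
    set b : ℝ := 9 / 2 * C * ‖U‖ * K with hb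
    have hb0 : 0 ≤ b := by positivity
    have hsmall : ∀ᶠ k in atTop, b * (‖z k‖ / t k) < 1 / 4 := by
      have h1 : Tendsto (fun k => b * (‖z k‖ / t k)) atTop (𝓝 (b * 0)) := hzn.const_mul b
      rw [mul_zero] at h1
      exact h1.eventually_lt_const (by norm_num)
    have hneg : ∀ᶠ k in atTop, F.eval (x k) < 0 := by
      filter_upwards [htpos, hnn (1 / 2) (by norm_num), hterm, hαge, hsmall,
        hαinf.eventually_gt_atTop (|F.B U U| + 1),
        hQ.eventually_lt_const (show F.B U U < F.B U U + 1 by linarith), hnn1] with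
        k hk hhalf htm hge hsm hαk hQk hxk
      have hα0 : 0 < α k := lt_of_le_of_lt (by positivity) hαk
      -- split of the remainder
      set zI : Fin n → ℝ := fun i => if A i < 0 then z k i else 0 with hzI
      set zO : Fin n → ℝ := fun i => if A i < 0 then 0 else z k i with hzO
      have hsplit : z k = zI + zO := by
        funext i
        simp only [hzI, hzO, Pi.add_apply]
        split_ifs <;> simp
      have hzInorm : ‖zI‖ ≤ K * α k := by
        rw [pi_norm_le_iff_of_nonneg (by positivity)]
        intro i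
        simp only [hzI]
        split_ifs with hi
        · have h1 := hge i
          have h2 : 0 < |A i| := abs_pos.mpr hi.ne
          have h3 : |z k i| * |A i| ≤ α k := by
            have h4 := htm i
            rw [← abs_mul]
            have h5 : |z k i * A i| = -(z k i * A i) := abs_of_nonpos (by linarith)
            rw [h5]; exact h1
          have h6 : |z k i| ≤ |A i|⁻¹ * α k := by
            rw [inv_mul_eq_div, le_div_iff₀ h2]; exact h3
          have h7 : |A i|⁻¹ ≤ K :=
            Finset.single_le_sum (f := fun i => |A i|⁻¹) (fun j _ => by positivity)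
              (Finset.mem_univ i)
          rw [Real.norm_eq_abs]
          calc |z k i| ≤ |A i|⁻¹ * α k := h6
            _ ≤ K * α k := mul_le_mul_of_nonneg_right h7 hα0.le
        · rw [norm_zero]; positivity
      have hzIz : ‖zI‖ ≤ ‖z k‖ := by
        rw [pi_norm_le_iff_of_nonneg (norm_nonneg _)]
        intro i
        simp only [hzI]
        split_ifs
        · exact norm_le_pi_norm (z k) i
        · rw [norm_zero]; exact norm_nonneg _
      have hzOz : ‖zO‖ ≤ ‖z k‖ := by
        rw [pi_norm_le_iff_of_nonneg (norm_nonneg _)]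
        intro i
        simp only [hzO]
        split_ifs
        · rw [norm_zero]; exact norm_nonneg _
        · exact norm_le_pi_norm (z k) i
      have hUUzO : F.T U U zO = 0 := by
        rw [hsum]
        refine Finset.sum_eq_zero fun i _ => ?_
        simp only [hzO]
        split_ifs with hi
        · simp
        · rw [le_antisymm (hAle i) (not_lt.mp hi), mul_zero]
      have hUzOzO : F.T U zO zO ≤ 0 := by
        refine (order_cond hTn hU1 hU0 hUUU (y := zO) fun i hi => ?_).2 hUUzO
        simp only [hzO]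
        split_ifs
        · exact le_rfl
        · rw [hzo i hi k]; exact hxk i
      have hβ : F.T U (z k) (z k) ≤ 3 * C * ‖U‖ * K * α k * ‖z k‖ := by
        have h1 : F.T U (z k) (z k) = F.T U zI zI + 2 * F.T U zI zO + F.T U zO zO := by
          rw [hsplit]
          simp only [map_add, LinearMap.add_apply]
          rw [F.Ts2 U zO zI]; ring
        have h2 : F.T U zI zI ≤ C * ‖U‖ * (K * α k) * ‖z k‖ := by
          refine (le_abs_self _).trans ((hCT U zI zI).trans ?_)
          gcongr
        have h3 : F.T U zI zO ≤ C * ‖U‖ * (K * α k) * ‖z k‖ := by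
          refine (le_abs_self _).trans ((hCT U zI zO).trans ?_)
          gcongr
        rw [h1]
        nlinarith
      -- comparison of the values at t and t / 2
      have hfull : F.T (x k) (x k) (x k) = 3 * (t k) ^ 2 * F.T U U (z k)
          + 3 * t k * F.T U (z k) (z k) + F.T (z k) (z k) (z k) := by
        rw [hxz k, F.T_add3]
        simp only [map_smul, LinearMap.smul_apply, smul_eq_mul]
        rw [hUUU]; ring
      have hhalfT := hTn _ hhalf
      rw [F.T_add3] at hhalfT
      simp only [map_smul, LinearMap.smul_apply, smul_eq_mul] at hhalfT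
      rw [hUUU] at hhalfT
      have hαk' : F.T U U (z k) = - α k := by simp [hα]
      rw [hαk'] at hhalfT hfull
      have hTx : F.T (x k) (x k) (x k) ≤ -2 * (t k) ^ 2 * α k := by
        have h1 : F.T (x k) (x k) (x k) ≤ -(9 / 4) * (t k) ^ 2 * α k
            + 3 / 2 * t k * F.T U (z k) (z k) := by
          rw [hfull]; nlinarith
        have h2 : 3 / 2 * t k * F.T U (z k) (z k)
            ≤ 3 / 2 * t k * (3 * C * ‖U‖ * K * α k * ‖z k‖) :=
          mul_le_mul_of_nonneg_left hβ (by positivity)
        have h3 : 3 / 2 * t k * (3 * C * ‖U‖ * K * α k * ‖z k‖)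
            = (t k) ^ 2 * α k * (b * (‖z k‖ / t k)) := by
          rw [hb]; field_simp; ring
        have h4 : (t k) ^ 2 * α k * (b * (‖z k‖ / t k)) ≤ (t k) ^ 2 * α k * (1 / 4) :=
          mul_le_mul_of_nonneg_left hsm.le (by positivity)
        linarith
      have hQk' : F.B (x k) (x k) + F.L (x k) + F.c < (F.B U U + 1) * (t k) ^ 2 := by
        rwa [div_lt_iff₀ (by positivity)] at hQk
      have habs := le_abs_self (F.B U U)
      unfold Forms.eval
      have h5 : 0 < (t k) ^ 2 := by positivity
      nlinarith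
    obtain ⟨k, h1, h2⟩ := (hneg.and hvpos).exists
    linarith
  have hUU : ∀ y, F.T U U y = 0 := by
    intro y
    rw [hsum]
    exact Finset.sum_eq_zero fun i _ => by rw [hAll i, mul_zero]
  refine ⟨hUU, le_antisymm (B_nonpos hM hF hst ha0 hfa0 hUnn hUU) ?_⟩
  refine ge_of_tendsto hQ ?_
  filter_upwards [htpos, hvpos, hnn1] with k h1 h2 h3
  have h4 := hTn (x k) h3
  unfold Forms.eval at h2
  have h5 : 0 ≤ F.B (x k) (x k) + F.L (x k) + F.c := by linarith
  positivity

end PoolH39.CUB
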