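import Pool.Agent.Helper39.CUB.Defs

/-!
# Integer polynomials of total degree at most three are cubic functions
-/

namespace PoolH39.CUB

variable {n : ℕ}

/-- representability by forms -/
def Rep (g : (Fin n → ℤ) → ℝ) : Prop := ∃ F : Forms n, ∀ a, g a = F.eval (cast a)

lemma Rep.add {g h : (Fin n → ℤ) → ℝ} (hg : Rep g) (hh : Rep h) : Rep (fun a => g a + h a) := by
  obtain ⟨F, hF⟩ := hg
  obtain ⟨G, hG⟩ := hh
  refine ⟨⟨F.T + G.T, F.B + G.B, F.L + G.L, F.c + G.c, ?_, ?_, ?_⟩, ?_⟩
  · intro x y z
    simp only [LinearMap.add_apply]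
    rw [F.Ts1 x y z, G.Ts1 x y z]
  · intro x y z
    simp only [LinearMap.add_apply]
    rw [F.Ts2 x y z, G.Ts2 x y z]
  · intro x y
    simp only [LinearMap.add_apply]
    rw [F.Bs x y, G.Bs x y]
  · intro a
    show g a + h a = _
    rw [hF a, hG a]
    simp only [Forms.eval, LinearMap.add_apply]
    ring

lemma Rep.smul {g : (Fin n → ℤ) → ℝ} (hg : Rep g) (r : ℝ) : Rep (fun a => r * g a) := by
  obtain ⟨F, hF⟩ := hg
  refine ⟨⟨r • F.T, r • F.B, r • F.L, r * F.c, ?_, ?_, ?_⟩, ?_⟩
  · intro x y z
    simp only [LinearMap.smul_apply]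
    rw [F.Ts1 x y z]
  · intro x y z
    simp only [LinearMap.smul_apply]
    rw [F.Ts2 x y z]
  · intro x y
    simp only [LinearMap.smul_apply]
    rw [F.Bs x y]
  · intro a
    show r * g a = _
    rw [hF a]
    simp only [Forms.eval, LinearMap.smul_apply, smul_eq_mul]
    ring

lemma rep_one : Rep (fun _ : Fin n → ℤ => (1 : ℝ)) :=
  ⟨⟨0, 0, 0, 1, by simp, by simp, by simp⟩, fun a => by simp [Forms.eval]⟩

lemma rep_x (i : Fin n) : Rep (fun a : Fin n → ℤ => (a i : ℝ)) :=
  ⟨⟨0, 0, LinearMap.proj i, 0, by simp, by simp, by simp⟩, fun a => by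
    simp [Forms.eval, cast]⟩

/-- the elementary bilinear form -/
noncomputable def bil (i j : Fin n) : (Fin n → ℝ) →ₗ[ℝ] (Fin n → ℝ) →ₗ[ℝ] ℝ :=
  LinearMap.mk₂ ℝ (fun x y => x i * y j)
    (fun x x' y => by simp; ring) (fun r x y => by simp; ring)
    (fun x y y' => by simp; ring) (fun r x y => by simp; ring)

@[simp] lemma bil_apply (i j : Fin n) (x y : Fin n → ℝ) : bil i j x y = x i * y j := rfl

/-- the elementary trilinear form -/
noncomputable def tri (i j k : Fin n) :
    (Fin n → ℝ) →ₗ[ℝ] (Fin n → ℝ) →ₗ[ℝ] (Fin n → ℝ) →ₗ[ℝ] ℝ :=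
  LinearMap.mk₂ ℝ (fun x y => (x i * y j) • (LinearMap.proj k : (Fin n → ℝ) →ₗ[ℝ] ℝ))
    (fun x x' y => by ext; simp; ring) (fun r x y => by ext; simp; ring)
    (fun x y y' => by ext; simp; ring) (fun r x y => by ext; simp; ring)

@[simp] lemma tri_apply (i j k : Fin n) (x y z : Fin n → ℝ) :
    tri i j k x y z = x i * y j * z k := rfl

lemma rep_xx (i j : Fin n) : Rep (fun a : Fin n → ℤ => (a i : ℝ) * (a j : ℝ)) := by
  refine ⟨⟨0, (1 / 2 : ℝ) • (bil i j + bil j i), 0, 0, by simp, by simp, ?_⟩, fun a => ?_⟩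
  · intro x y
    simp only [LinearMap.smul_apply, LinearMap.add_apply, bil_apply, smul_eq_mul]
    ring
  · simp only [Forms.eval, LinearMap.smul_apply, LinearMap.add_apply, bil_apply, smul_eq_mul,
      LinearMap.zero_apply, cast]
    ring

lemma rep_xxx (i j k : Fin n) :
    Rep (fun a : Fin n → ℤ => (a i : ℝ) * (a j : ℝ) * (a k : ℝ)) := by
  refine ⟨⟨(1 / 6 : ℝ) • (tri i j k + tri i k j + tri j i k + tri j k i + tri k i j
    + tri k j i), 0, 0, 0, ?_, ?_, by simp⟩, fun a => ?_⟩
  · intro x y z
    simp only [LinearMap.smul_apply, LinearMap.add_apply, tri_apply, smul_eq_mul]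
    ring
  · intro x y z
    simp only [LinearMap.smul_apply, LinearMap.add_apply, tri_apply, smul_eq_mul]
    ring
  · simp only [Forms.eval, LinearMap.smul_apply, LinearMap.add_apply, tri_apply, smul_eq_mul,
      LinearMap.zero_apply, cast]
    ring

lemma rep_multiset (s : Multiset (Fin n)) (hs : Multiset.card s ≤ 3) :
    Rep (fun a : Fin n → ℤ => (((s.map a).prod : ℤ) : ℝ)) := by
  have h : Multiset.card s = 0 ∨ Multiset.card s = 1 ∨ Multiset.card s = 2 ∨
      Multiset.card s = 3 := by omega
  rcases h with h | h | h | h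
  · rw [Multiset.card_eq_zero] at h
    subst h
    simpa using rep_one
  · obtain ⟨i, rfl⟩ := Multiset.card_eq_one.mp h
    simpa using rep_x i
  · obtain ⟨i, j, rfl⟩ := Multiset.card_eq_two.mp h
    simpa using rep_xx i j
  · obtain ⟨i, j, k, rfl⟩ := Multiset.card_eq_three.mp h
    simpa [mul_assoc] using rep_xxx i j k

lemma prod_toMultiset' (s : Fin n →₀ ℕ) (a : Fin n → ℤ) :
    (s.toMultiset.map a).prod = s.prod fun i k => a i ^ k := by
  rw [Finsupp.toMultiset_map, Finsupp.prod_toMultiset, Finsupp.prod_mapDomain_index]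
  · intro b; simp
  · intro b m₁ m₂; exact pow_add b m₁ m₂

theorem isCubic_of_totalDegree (P : MvPolynomial (Fin n) ℤ) (hP : P.totalDegree ≤ 3) :
    IsCubic n (fun a => MvPolynomial.eval a P) := by
  constructor
  · intro a w v
    clear hP
    induction P using MvPolynomial.induction_on with
    | C c => simp
    | add p q hp hq =>
      have h0 := dvd_add hp hq
      have h1 : MvPolynomial.eval (fun i => a i + v * w i) (p + q)
          - MvPolynomial.eval a (p + q)
          = (MvPolynomial.eval (fun i => a i + v * w i) p - MvPolynomial.eval a p)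
            + (MvPolynomial.eval (fun i => a i + v * w i) q - MvPolynomial.eval a q) := by
        rw [map_add, map_add]; ring
      show v ∣ MvPolynomial.eval (fun i => a i + v * w i) (p + q)
          - MvPolynomial.eval a (p + q)
      rw [h1]
      exact h0
    | mul_X p i hp =>
      simp only [map_mul, MvPolynomial.eval_X]
      have h1 : MvPolynomial.eval (fun i => a i + v * w i) p * (a i + v * w i)
          - MvPolynomial.eval a p * a i
          = (MvPolynomial.eval (fun i => a i + v * w i) p - MvPolynomial.eval a p)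
            * (a i + v * w i) + v * (MvPolynomial.eval a p * w i) := by ring
      rw [h1]
      exact dvd_add (Dvd.dvd.mul_right hp _) (dvd_mul_right _ _)
  · have hsum : ∀ T : Finset (Fin n →₀ ℕ), (∀ s ∈ T, s ∈ P.support) →
        Rep (fun a : Fin n → ℤ => (((∑ s ∈ T, MvPolynomial.eval a
          (MvPolynomial.monomial s (P.coeff s)) : ℤ)) : ℝ)) := by
      intro T
      induction T using Finset.induction_on with
      | empty =>
        intro _
        have := (rep_one (n := n)).smul 0
        simpa using this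
      | insert s T hs ih =>
        intro hT
        have h1 := ih (fun s' hs' => hT s' (Finset.mem_insert_of_mem hs'))
        have hdeg : Multiset.card s.toMultiset ≤ 3 := by
          rw [Finsupp.card_toMultiset]
          exact (MvPolynomial.le_totalDegree (hT s (Finset.mem_insert_self s T))).trans hP
        have h2 := (rep_multiset s.toMultiset hdeg).smul ((P.coeff s : ℤ) : ℝ)
        have h3 := h2.add h1
        refine (show Rep _ from ?_)
        obtain ⟨F, hF⟩ := h3
        refine ⟨F, fun a => ?_⟩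
        rw [← hF a]
        show ((((∑ s ∈ insert s T, MvPolynomial.eval a
          (MvPolynomial.monomial s (P.coeff s)) : ℤ)) : ℝ)) =
            ((P.coeff s : ℤ) : ℝ) * (((s.toMultiset.map a).prod : ℤ) : ℝ)
            + (((∑ s ∈ T, MvPolynomial.eval a
          (MvPolynomial.monomial s (P.coeff s)) : ℤ)) : ℝ)
        rw [Finset.sum_insert hs, prod_toMultiset', MvPolynomial.eval_monomial]
        push_cast
        ring
    obtain ⟨F, hF⟩ := hsum P.support (fun s hs => hs)
    refine ⟨F, fun a => ?_⟩
    rw [← hF a]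
    congr 1
    conv_lhs => rw [P.as_sum]
    rw [map_sum]

end PoolH39.CUB
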