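import Pool.Agent.Helper39.CUB.Key

/-!
# States and the dimension step
-/

namespace PoolH39.CUB

open Filter Topology

variable {n : ℕ} {f : (Fin n → ℤ) → ℤ} {M0 : ℤ} {F : Forms n}

/-- A subspace of double zeros near which an unbounded sequence runs. -/
structure State (F : Forms n) (V : Submodule ℝ (Fin n → ℝ)) (S : Set (Fin n))
    (a : ℕ → Fin n → ℤ) : Prop where
  van : F.Van V
  supp : ∀ e ∈ V, ∀ i ∉ S, e i = 0
  nonneg : ∀ k i, 0 ≤ a k i
  coord : ∀ i, Tendsto (fun k => (a k i : ℝ)) atTop atTop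
  val : Tendsto (fun k => F.eval (cast (a k))) atTop atTop
  dom : ∀ i ∈ S, Tendsto (fun k =>
    (1 + Metric.infDist (cast (a k)) (V : Set (Fin n → ℝ))) / (a k i : ℝ)) atTop (𝓝 0)

/-- large multiples of a positive vector dominate -/
lemma large_pos {S : Set (Fin n)} {e : Fin n → ℝ} (he : ∀ i ∈ S, 0 < e i) (u : Fin n → ℝ) :
    ∃ C₀ : ℝ, 0 ≤ C₀ ∧ ∀ C, C₀ ≤ C → ∀ i ∈ S, 0 < C * e i + u i := by
  have h : ∀ᶠ C : ℝ in atTop, ∀ i, i ∈ S → 0 < C * e i + u i := by
    rw [eventually_all]
    intro i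
    by_cases hi : i ∈ S
    · have h1 : Tendsto (fun C : ℝ => C * e i + u i) atTop atTop :=
        tendsto_atTop_add_const_right _ _ (tendsto_id.atTop_mul_const (he i hi))
      filter_upwards [h1.eventually_gt_atTop 0] with C hC _ using hC
    · exact Eventually.of_forall fun C h => absurd h hi
  obtain ⟨C₀, hC₀⟩ := eventually_atTop.mp h
  exact ⟨max C₀ 0, le_max_right _ _, fun C hC i hi => hC₀ C ((le_max_left _ _).trans hC) i hi⟩

theorem step (hM : 0 ≤ M0) (hF : ∀ a, (f a : ℝ) = F.eval (cast a)) (hst : Star f M0)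
    {V : Submodule ℝ (Fin n → ℝ)} {S : Set (Fin n)} {a : ℕ → Fin n → ℤ}
    (hs : State F V S a) :
    ∃ (V' : Submodule ℝ (Fin n → ℝ)) (S' : Set (Fin n)) (a' : ℕ → Fin n → ℤ),
      State F V' S' a' ∧ Module.finrank ℝ V < Module.finrank ℝ V' := by
  classical
  -- nearest points
  have hcl : IsClosed (V : Set (Fin n → ℝ)) := V.closed_of_finiteDimensional
  have hne : (V : Set (Fin n → ℝ)).Nonempty := ⟨0, V.zero_mem⟩
  choose e heV hed using fun k => hcl.exists_infDist_eq_dist hne (cast (a k))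
  set y : ℕ → Fin n → ℝ := fun k => cast (a k) - e k with hy
  have hyn : ∀ k, Metric.infDist (cast (a k)) (V : Set (Fin n → ℝ)) = ‖y k‖ := fun k => by
    rw [hed k, dist_eq_norm]
  have hay : ∀ k, cast (a k) = y k + e k := fun k => by simp [hy]
  have hfv : ∀ᶠ k in atTop, M0 < f (a k) := by
    filter_upwards [hs.val.eventually_gt_atTop (M0 : ℝ)] with k hk
    rw [← hF] at hk
    exact_mod_cast hk
  -- domination
  have hdom : ∀ R : ℝ, 0 ≤ R → ∀ᶠ k in atTop, ∀ i, i ∈ S → R * (1 + ‖y k‖) < (a k i : ℝ) := by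
    intro R hR
    rw [eventually_all]
    intro i
    by_cases hi : i ∈ S
    · filter_upwards [(hs.dom i hi).eventually_lt_const (show (0 : ℝ) < 1 / (R + 1) by
        positivity), (hs.coord i).eventually_gt_atTop 0] with k h1 h2 _
      rw [hyn k, div_lt_iff₀ h2, div_mul_eq_mul_div, one_mul, lt_div_iff₀ (by positivity)] at h1
      have := norm_nonneg (y k)
      nlinarith
    · exact Eventually.of_forall fun k h => absurd h hi
  have hei : ∀ k i, (a k i : ℝ) - ‖y k‖ ≤ e k i := by
    intro k i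
    have h1 : |y k i| ≤ ‖y k‖ := by simpa using norm_le_pi_norm (y k) i
    have h2 : e k i = (a k i : ℝ) - y k i := by simp [hy, cast]
    have := le_abs_self (y k i)
    linarith
  have hpos : ∀ (C : ℝ) (g : Fin n → ℝ), ∀ᶠ k in atTop, ∀ i, i ∈ S →
      0 < (e k - (C * ‖y k‖) • g) i := by
    intro C g
    filter_upwards [hdom (1 + |C| * ‖g‖) (by positivity)] with k hk i hi
    have h1 := hk i hi
    have h2 := hei k i
    have h3 : |g i| ≤ ‖g‖ := by simpa using norm_le_pi_norm g i
    have h4 : C * ‖y k‖ * g i ≤ |C| * ‖g‖ * ‖y k‖ := by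
      calc C * ‖y k‖ * g i ≤ |C * ‖y k‖ * g i| := le_abs_self _
        _ = |C| * ‖y k‖ * |g i| := by rw [abs_mul, abs_mul, abs_norm]
        _ ≤ |C| * ‖y k‖ * ‖g‖ := mul_le_mul_of_nonneg_left h3 (by positivity)
        _ = |C| * ‖g‖ * ‖y k‖ := by ring
    simp only [Pi.sub_apply, Pi.smul_apply, smul_eq_mul]
    have h5 : 0 ≤ |C| * ‖g‖ := by positivity
    have h6 := norm_nonneg (y k)
    nlinarith
  -- monotonicity
  have hmono : ∀ k, M0 < f (a k) → ∀ (g : Fin n → ℝ), g ∈ V → (∀ i ∈ S, 0 < g i) →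
      ∀ x : Fin n → ℝ, cast (a k) = x + g → F.eval (cast (a k)) ≤ F.eval x := by
    intro k hk g hg hgpos x hx
    have h1 := cc_nonpos hM hF hst hs.van (hs.nonneg k) hk hg (fun i => by
      by_cases hi : i ∈ S
      · exact (hgpos i hi).le
      · rw [hs.supp g hg i hi])
    rw [hx, hs.van.cc_shift hg hg] at h1
    rw [hx, hs.van.eval_add hg]
    linarith
  -- the distance tends to infinity
  have hyinf : Tendsto (fun k => ‖y k‖) atTop atTop := by
    by_contra hcon
    rw [tendsto_atTop] at hcon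
    push Not at hcon
    obtain ⟨R, hR⟩ := hcon
    obtain ⟨K, hK⟩ := F.eval_bdd R
    have hp := hpos 0 0
    obtain ⟨k, h1, h2, h3, h4⟩ := (hR.and_eventually
      (hfv.and ((hs.val.eventually_gt_atTop K).and hp))).exists
    have h5 := hmono k h2 (e k) (heV k) (fun i hi => by simpa using h4 i hi) (y k) (hay k)
    have h6 := hK (y k) h1.le
    linarith
  -- the limit direction
  obtain ⟨u, -, φ, hφ, hlim⟩ := (isCompact_closedBall (0 : Fin n → ℝ) 1).tendsto_subseq
    (x := fun k => (‖y k‖)⁻¹ • y k) (fun k => by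
      rw [mem_closedBall_zero_iff, norm_smul, norm_inv, norm_norm]
      by_cases h0 : ‖y k‖ = 0
      · rw [h0]; simp
      · rw [inv_mul_cancel₀ h0])
  have hφt := hφ.tendsto_atTop
  set t : ℕ → ℝ := fun k => ‖y (φ k)‖ with ht
  have htinf : Tendsto t atTop atTop := hyinf.comp hφt
  have htpos := htinf.eventually_gt_atTop 0
  have hlim' : Tendsto (fun k => (t k)⁻¹ • y (φ k)) atTop (𝓝 u) := hlim
  have hdist : ∀ᶠ k in atTop, ‖y (φ k) - t k • u‖ = t k * ‖(t k)⁻¹ • y (φ k) - u‖ := by
    filter_upwards [htpos] with k hk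
    rw [← Real.norm_of_nonneg hk.le, ← norm_smul, Real.norm_of_nonneg hk.le, smul_sub,
      smul_smul, mul_inv_cancel₀ hk.ne', one_smul]
  have hlim0 : Tendsto (fun k => ‖(t k)⁻¹ • y (φ k) - u‖) atTop (𝓝 0) := by
    have := (hlim'.sub_const u).norm
    rwa [sub_self, norm_zero] at this
  have huV : u ∉ V := by
    intro hu
    obtain ⟨k, h1, h2, h3⟩ := (hdist.and (htpos.and
      (hlim0.eventually_lt_const one_pos))).exists
    have h4 : Metric.infDist (cast (a (φ k))) (V : Set (Fin n → ℝ))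
        ≤ dist (cast (a (φ k))) (e (φ k) + t k • u) :=
      Metric.infDist_le_dist_of_mem (V.add_mem (heV _) (V.smul_mem _ hu))
    have h5 : dist (cast (a (φ k))) (e (φ k) + t k • u) = ‖y (φ k) - t k • u‖ := by
      rw [dist_eq_norm]; congr 1; rw [hay]; abel
    rw [hyn, h5, h1] at h4
    have h6 : ‖y (φ k)‖ = t k := rfl
    rw [h6] at h4
    nlinarith
  have hyo : ∀ i ∉ S, ∀ k, y k i = (a k i : ℝ) := by
    intro i hi k
    have := hs.supp (e k) (heV k) i hi
    simp [hy, cast, this]
  have hu0 : ∀ i ∉ S, 0 ≤ u i := by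
    intro i hi
    refine ge_of_tendsto' ((tendsto_pi_nhds.mp hlim') i) fun k => ?_
    simp only [Pi.smul_apply, smul_eq_mul]
    rw [hyo i hi (φ k)]
    have h1 : (0 : ℝ) ≤ (a (φ k) i : ℝ) := by exact_mod_cast hs.nonneg (φ k) i
    have h2 : 0 ≤ t k := norm_nonneg _
    positivity
  -- a base point
  obtain ⟨k₀, hk₀, hk₀'⟩ := (hfv.and (hpos 0 0)).exists
  have hg₀V : e k₀ ∈ V := heV k₀
  have hg₀ : ∀ i ∈ S, 0 < e k₀ i := fun i hi => by simpa using hk₀' i hi
  -- the key lemma along a positive vector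
  have hkey : ∀ g ∈ V, (∀ i ∈ S, 0 < g i) → (∀ x, F.T g u x = 0) ∧ (∀ x, F.T u u x = 0) ∧
      F.B g u = 0 ∧ F.B u u = 0 := by
    intro g hg hgpos
    obtain ⟨C₀, hC₀, hC⟩ := large_pos hgpos u
    have hmain : ∀ C, C₀ ≤ C → (∀ x, F.T (C • g + u) (C • g + u) x = 0) ∧
        F.B (C • g + u) (C • g + u) = 0 := by
      intro C hCC
      refine key hM hF hst (hs.nonneg k₀) hk₀ (S' := S ∪ {i | 0 < u i}) (t := t)
        (x := fun k => y (φ k) + (C * t k) • g) ?_ ?_ htinf ?_ ?_ ?_
      · intro i hi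
        simp only [Pi.add_apply, Pi.smul_apply, smul_eq_mul]
        by_cases hiS : i ∈ S
        · exact hC C hCC i hiS
        · rw [hs.supp g hg i hiS, mul_zero, zero_add]
          rcases hi with h | h
          · exact absurd h hiS
          · exact h
      · intro i hi
        have hiS : i ∉ S := fun h => hi (Or.inl h)
        have hiu : ¬ 0 < u i := fun h => hi (Or.inr h)
        simp only [Pi.add_apply, Pi.smul_apply, smul_eq_mul]
        rw [hs.supp g hg i hiS, mul_zero, zero_add]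
        exact le_antisymm (not_lt.mp hiu) (hu0 i hiS)
      · have h1 : Tendsto (fun k => C • g + (t k)⁻¹ • y (φ k)) atTop (𝓝 (C • g + u)) :=
          tendsto_const_nhds.add hlim'
        refine h1.congr' ?_
        filter_upwards [htpos] with k hk
        rw [smul_add, smul_smul, add_comm]
        congr 2
        field_simp
      · intro i hi
        have hiS : i ∉ S := fun h => hi (Or.inl h)
        have h1 : (fun k => (y (φ k) + (C * t k) • g) i) = fun k => (a (φ k) i : ℝ) := by
          funext k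
          simp only [Pi.add_apply, Pi.smul_apply, smul_eq_mul]
          rw [hs.supp g hg i hiS, mul_zero, add_zero, hyo i hiS]
        rw [h1]
        exact (hs.coord i).comp hφt
      · refine tendsto_atTop_mono' _ ?_ (hs.val.comp hφt)
        filter_upwards [hφt.eventually hfv, hφt.eventually (hpos C g)] with k h1 h2
        refine hmono (φ k) h1 (e (φ k) - (C * ‖y (φ k)‖) • g)
          (V.sub_mem (heV _) (V.smul_mem _ hg)) (fun i hi => h2 i hi) _ ?_
        rw [hay (φ k)]
        simp only [ht]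
        abel
    obtain ⟨hT1, hB1⟩ := hmain C₀ le_rfl
    obtain ⟨hT2, hB2⟩ := hmain (C₀ + 1) (by linarith)
    have hexpT : ∀ C x, F.T (C • g + u) (C • g + u) x = 2 * C * F.T g u x + F.T u u x := by
      intro C x
      simp only [map_add, map_smul, LinearMap.add_apply, LinearMap.smul_apply, smul_eq_mul]
      rw [hs.van.hT g hg x, F.Ts1 u g x]; ring
    have hexpB : ∀ C, F.B (C • g + u) (C • g + u) = 2 * C * F.B g u + F.B u u := by
      intro C
      simp only [map_add, map_smul, LinearMap.add_apply, LinearMap.smul_apply, smul_eq_mul]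
      rw [hs.van.hB g hg, F.Bs u g]; ring
    have hTg : ∀ x, F.T g u x = 0 := by
      intro x
      have h1 := hT1 x
      have h2 := hT2 x
      rw [hexpT] at h1 h2
      linarith
    have hBg : F.B g u = 0 := by
      rw [hexpB] at hB1 hB2
      linarith
    refine ⟨hTg, fun x => ?_, hBg, ?_⟩
    · have h1 := hT1 x
      rw [hexpT, hTg x] at h1
      linarith
    · rw [hexpB, hBg] at hB1
      linarith
  obtain ⟨hT0, hTuu, hB0, hBuu⟩ := hkey (e k₀) hg₀V hg₀
  have hall : ∀ g ∈ V, (∀ x, F.T g u x = 0) ∧ F.B g u = 0 := by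
    intro g hg
    obtain ⟨C₀, hC₀, hC⟩ := large_pos hg₀ g
    obtain ⟨h1, -, h2, -⟩ := hkey (C₀ • e k₀ + g) (V.add_mem (V.smul_mem _ hg₀V) hg)
      (fun i hi => by simpa using hC C₀ le_rfl i hi)
    refine ⟨fun x => ?_, ?_⟩
    · have h3 := h1 x
      simp only [map_add, map_smul, LinearMap.add_apply, LinearMap.smul_apply,
        smul_eq_mul] at h3
      rw [hT0 x] at h3
      linarith
    · simp only [map_add, map_smul, LinearMap.add_apply, LinearMap.smul_apply,
        smul_eq_mul] at h2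
      rw [hB0] at h2
      linarith
  -- the new state
  have hmem : ∀ g : Fin n → ℝ, g ∈ V ⊔ Submodule.span ℝ {u} →
      ∃ g₁ ∈ V, ∃ c : ℝ, g = g₁ + c • u := by
    intro g hg
    obtain ⟨g₁, hg₁, g₂, hg₂, hsum⟩ := Submodule.mem_sup.mp hg
    obtain ⟨c, hc⟩ := Submodule.mem_span_singleton.mp hg₂
    exact ⟨g₁, hg₁, c, by rw [← hsum, ← hc]⟩
  have hle : V ≤ V ⊔ Submodule.span ℝ {u} := le_sup_left
  have huV' : u ∈ V ⊔ Submodule.span ℝ {u} :=
    Submodule.mem_sup_right (Submodule.mem_span_singleton_self u)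
  have hd' : ∀ᶠ k in atTop,
      Metric.infDist (cast (a (φ k))) ((V ⊔ Submodule.span ℝ {u} : Submodule ℝ (Fin n → ℝ)) :
        Set (Fin n → ℝ)) ≤ t k * ‖(t k)⁻¹ • y (φ k) - u‖ := by
    filter_upwards [hdist] with k hk
    rw [← hk]
    have h4 : Metric.infDist (cast (a (φ k)))
        ((V ⊔ Submodule.span ℝ {u} : Submodule ℝ (Fin n → ℝ)) : Set (Fin n → ℝ))
        ≤ dist (cast (a (φ k))) (e (φ k) + t k • u) :=
      Metric.infDist_le_dist_of_mem
        (Submodule.add_mem _ (hle (heV _)) (Submodule.smul_mem _ _ huV'))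
    have h5 : dist (cast (a (φ k))) (e (φ k) + t k • u) = ‖y (φ k) - t k • u‖ := by
      rw [dist_eq_norm]; congr 1; rw [hay]; abel
    rwa [h5] at h4
  refine ⟨V ⊔ Submodule.span ℝ {u}, S ∪ {i | 0 < u i}, fun k => a (φ k), ?_, ?_⟩
  · constructor
    · constructor
      · intro g hg x
        obtain ⟨g₁, hg₁, c, rfl⟩ := hmem g hg
        simp only [map_add, map_smul, LinearMap.add_apply, LinearMap.smul_apply, smul_eq_mul]
        rw [hs.van.hT g₁ hg₁ x, F.Ts1 u g₁ x, (hall g₁ hg₁).1 x, hTuu x]; ring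
      · intro g hg
        obtain ⟨g₁, hg₁, c, rfl⟩ := hmem g hg
        simp only [map_add, map_smul, LinearMap.add_apply, LinearMap.smul_apply, smul_eq_mul]
        rw [hs.van.hB g₁ hg₁, F.Bs u g₁, (hall g₁ hg₁).2, hBuu]; ring
    · intro g hg i hi
      obtain ⟨g₁, hg₁, c, rfl⟩ := hmem g hg
      have hiS : i ∉ S := fun h => hi (Or.inl h)
      have hiu : ¬ 0 < u i := fun h => hi (Or.inr h)
      simp only [Pi.add_apply, Pi.smul_apply, smul_eq_mul]
      rw [hs.supp g₁ hg₁ i hiS, le_antisymm (not_lt.mp hiu) (hu0 i hiS)]; ring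
    · exact fun k i => hs.nonneg (φ k) i
    · exact fun i => (hs.coord i).comp hφt
    · exact hs.val.comp hφt
    · intro i hi
      by_cases hiS : i ∈ S
      · have h1 : Tendsto (fun k => (1 + Metric.infDist (cast (a (φ k)))
            (V : Set (Fin n → ℝ))) / (a (φ k) i : ℝ)) atTop (𝓝 0) := (hs.dom i hiS).comp hφt
        refine squeeze_zero (fun k => ?_) (fun k => ?_) h1
        · have h2 : (0 : ℝ) ≤ (a (φ k) i : ℝ) := by exact_mod_cast hs.nonneg (φ k) i
          have h3 : 0 ≤ Metric.infDist (cast (a (φ k)))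
            ((V ⊔ Submodule.span ℝ {u} : Submodule ℝ (Fin n → ℝ)) : Set (Fin n → ℝ)) :=
            Metric.infDist_nonneg
          positivity
        · have h2 : (0 : ℝ) ≤ (a (φ k) i : ℝ) := by exact_mod_cast hs.nonneg (φ k) i
          have h3 := Metric.infDist_le_infDist_of_subset (x := cast (a (φ k)))
            (show (V : Set (Fin n → ℝ)) ⊆
              ((V ⊔ Submodule.span ℝ {u} : Submodule ℝ (Fin n → ℝ)) : Set (Fin n → ℝ)) from hle)
            hne
          gcongr
      · have hui : 0 < u i := by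
          rcases hi with h | h
          · exact absurd h hiS
          · exact h
        have hvi : Tendsto (fun k => ((t k)⁻¹ • y (φ k)) i) atTop (𝓝 (u i)) :=
          (tendsto_pi_nhds.mp hlim') i
        have h1 : Tendsto (fun k => ((t k)⁻¹ + ‖(t k)⁻¹ • y (φ k) - u‖)
            / ((t k)⁻¹ • y (φ k)) i) atTop (𝓝 ((0 + 0) / u i)) :=
          (htinf.inv_tendsto_atTop.add hlim0).div hvi hui.ne'
        rw [add_zero, zero_div] at h1
        refine squeeze_zero' (Eventually.of_forall fun k => ?_) ?_ h1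
        · have h2 : (0 : ℝ) ≤ (a (φ k) i : ℝ) := by exact_mod_cast hs.nonneg (φ k) i
          have h3 : 0 ≤ Metric.infDist (cast (a (φ k)))
            ((V ⊔ Submodule.span ℝ {u} : Submodule ℝ (Fin n → ℝ)) : Set (Fin n → ℝ)) :=
            Metric.infDist_nonneg
          positivity
        · filter_upwards [hd', htpos, hvi.eventually_const_lt hui] with k h2 h3 h4
          have h5 : ((t k)⁻¹ • y (φ k)) i = (t k)⁻¹ * (a (φ k) i : ℝ) := by
            simp only [Pi.smul_apply, smul_eq_mul]; rw [hyo i hiS]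
          have h6 : 0 < (a (φ k) i : ℝ) := by
            rw [h5] at h4
            by_contra hc
            push Not at hc
            have : (t k)⁻¹ * (a (φ k) i : ℝ) ≤ 0 :=
              mul_nonpos_of_nonneg_of_nonpos (by positivity) hc
            linarith
          rw [h5, div_le_div_iff₀ h6 (by positivity)]
          have h7 : (1 + Metric.infDist (cast (a (φ k)))
            ((V ⊔ Submodule.span ℝ {u} : Submodule ℝ (Fin n → ℝ)) : Set (Fin n → ℝ)))
              ≤ 1 + t k * ‖(t k)⁻¹ • y (φ k) - u‖ := by linarith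
          calc _ ≤ (1 + t k * ‖(t k)⁻¹ • y (φ k) - u‖) * ((t k)⁻¹ * (a (φ k) i : ℝ)) :=
                mul_le_mul_of_nonneg_right h7 (by positivity)
            _ = ((t k)⁻¹ + ‖(t k)⁻¹ • y (φ k) - u‖) * (a (φ k) i : ℝ) := by
                field_simp
  · refine Submodule.finrank_lt_finrank_of_lt (lt_of_le_of_ne hle fun h => huV ?_)
    rw [h]; exact huV'

end PoolH39.CUB
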